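import Pool.Agent.Lib.SHZ.Short0

/-!
# Tuples `(0, f)`, all ranges, and sets
-/

set_option autoImplicit false

open Finset Filter

namespace Pool.Agent.SHZ

open Pool.Agent.HLB Pool.Agent.HL Pool.Agent.HLT Pool.Agent.HLU Pool.Agent.VK Pool.Agent.VN Pool.Agent.SHT

/-- The formula for the tuple `s` at `y` with the error `e`. -/
def HLy {r : ℕ} (s : Fin r → ℕ) (y : ℕ) (e : ℝ) : Prop :=
  |(((Icc 1 y).filter (fun n : ℕ => ∀ i, (n + s i).Prime)).card : ℝ) - SI s * ∑ n ∈ Icc 2 y, hl univ s n| ≤ e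

/-- Long ranges. -/
theorem long_x0 (m A : ℕ) (ε : ℝ) (hε : 0 < ε) : ∃ x0 : ℕ, ∀ X : ℕ, x0 ≤ X →
    ∃ E ⊆ Fintype.piFinset (fun _ : Fin m => Icc 1 X), (E.card : ℝ) ≤ (X : ℝ) ^ m / Real.log X ^ A ∧
    ∀ f ∈ Fintype.piFinset (fun _ : Fin m => Icc 1 X), f ∉ E → Function.Injective f →
      ∀ x : ℕ, X ≤ x → (x : ℝ) ^ (1 / 6 + ε) ≤ X → ∀ y : ℕ, y ≤ x →
        HLy (Fin.cons 0 f : Fin (m + 1) → ℕ) y (x / Real.log x ^ A) := by
  classical
  obtain ⟨b0, x0, h⟩ := fin_b (1 / 6) (1 / 6 + ε) le_rfl wne6 (by linarith) m A FI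
  obtain ⟨H0, hH0⟩ := interval_spb b0
  refine ⟨max x0 H0, fun X hX => ?_⟩
  have hsub : Icc 1 X ⊆ range (X + 1) := by
    intro u hu
    rw [mem_Icc] at hu
    rw [mem_range]
    omega
  have hcard : (Icc 1 X).card = X := by rw [Nat.card_Icc, Nat.add_sub_cancel]
  obtain ⟨E, e1, e2, e3⟩ := h X (le_trans (le_max_left _ _) hX) (fun _ => X) (fun _ => le_rfl) (fun _ => Icc 1 X)
    (fun _ => hsub) (fun _ => hH0 X (le_trans (le_max_right _ _) hX)) 0 (Nat.zero_le _)
  refine ⟨E, e1, ?_, fun f hf hfE hinj x hx hxX y hy => ?_⟩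
  · rwa [Finset.prod_const, Finset.card_univ, Fintype.card_fin, hcard] at e2
  · have hf1 : ∀ i, 1 ≤ f i := fun i => (mem_Icc.mp (Fintype.mem_piFinset.mp hf i)).1
    exact e3 f hf hfE (cons_inj f hinj hf1) x hx (fun _ => hxX) y hy

/-- All ranges. -/
theorem all_x0 (m A : ℕ) (ε : ℝ) (hε : 0 < ε) : ∃ x0 : ℕ, ∀ X : ℕ, x0 ≤ X →
    ∃ E ⊆ Fintype.piFinset (fun _ : Fin m => Icc 1 X), (E.card : ℝ) ≤ (X : ℝ) ^ m / Real.log X ^ A ∧
    ∀ f ∈ Fintype.piFinset (fun _ : Fin m => Icc 1 X), f ∉ E → Function.Injective f →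
      ∀ x : ℕ, (X : ℝ) ^ (1 / 6 + ε) ≤ x → (x : ℝ) ^ (1 / 6 + ε) ≤ X → ∀ y : ℕ, y ≤ x →
        HLy (Fin.cons 0 f : Fin (m + 1) → ℕ) y (x / Real.log x ^ A) := by
  classical
  obtain ⟨C, x1, h1⟩ := short_x0 m (A + 1) ε hε
  obtain ⟨x2, h2⟩ := long_x0 m (A + C + 2) ε hε
  obtain ⟨x3, h3⟩ := eventually_atTop.mp (ev_log 2)
  refine ⟨max (max x1 x2) (max x3 1), fun X hX => ?_⟩
  obtain ⟨E1, a1, a2, a3⟩ := h1 X (le_trans (le_trans (le_max_left _ _) (le_max_left _ _)) hX)
  obtain ⟨E2, b1, b2, b3⟩ := h2 X (le_trans (le_trans (le_max_right _ _) (le_max_left _ _)) hX)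
  have hL : 2 ≤ Real.log X := h3 X (le_trans (le_trans (le_max_left _ _) (le_max_right _ _)) hX)
  have hX1 : 1 ≤ X := le_trans (le_trans (le_max_right _ _) (le_max_right _ _)) hX
  have hXr : (0 : ℝ) < X := by exact_mod_cast hX1
  have hXr1 : (1 : ℝ) ≤ X := by exact_mod_cast hX1
  have hL0 : 0 < Real.log X := by linarith
  have hL1 : 1 ≤ Real.log X := by linarith
  refine ⟨E1 ∪ E2, Finset.union_subset a1 b1, ?_, fun f hf hfE hinj => ?_⟩
  · have g1 : ((E1 ∪ E2).card : ℝ) ≤ E1.card + E2.card := by exact_mod_cast Finset.card_union_le _ _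
    have g2 : (X : ℝ) ^ m / Real.log X ^ (A + C + 2) ≤ (X : ℝ) ^ m / Real.log X ^ (A + 1) :=
      div_le_div_of_nonneg_left (by positivity) (by positivity) (pow_le_pow_right₀ hL1 (by omega))
    have g3 : (X : ℝ) ^ m / Real.log X ^ (A + 1) + (X : ℝ) ^ m / Real.log X ^ (A + 1) ≤
        (X : ℝ) ^ m / Real.log X ^ A := by
      rw [← two_mul, mul_div_assoc', div_le_div_iff₀ (by positivity) (by positivity), pow_succ (Real.log X) A]
      have : 0 ≤ (X : ℝ) ^ m * Real.log X ^ A := by positivity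
      nlinarith
    linarith
  · rw [Finset.mem_union, not_or] at hfE
    refine fun x hx1 hx2 y hy => ?_
    have hx0 : 1 ≤ x := by
      have h9 : (1 : ℝ) ≤ (X : ℝ) ^ (1 / 6 + ε) := Real.one_le_rpow hXr1 (by linarith)
      exact_mod_cast h9.trans hx1
    have hxr : (0 : ℝ) < x := by exact_mod_cast hx0
    rcases Nat.lt_or_ge x X with hlt | hge
    · have hltr : (x : ℝ) ≤ X := by exact_mod_cast hlt.le
      have hlog : Real.log x ≤ Real.log X := Real.log_le_log hxr hltr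
      have h0 : 0 < Real.log x := by
        have h9 := Real.log_le_log (by positivity) hx1
        rw [Real.log_rpow hXr] at h9
        nlinarith
      suffices h : HLy (Fin.cons 0 f : Fin (m + 1) → ℕ) y (x / Real.log X ^ A) by
        unfold HLy at h ⊢
        refine h.trans ?_
        exact div_le_div_of_nonneg_left hxr.le (by positivity) (pow_le_pow_left₀ h0.le hlog A)
      by_cases hc : 2 * (x : ℝ) * Real.log X ^ C ≤ X
      · have h10 := a3 f hf hfE.1 hinj x hx1 hc y hy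
        unfold HLy
        refine h10.trans ?_
        exact div_le_div_of_nonneg_left hxr.le (by positivity) (pow_le_pow_right₀ hL1 (by omega))
      · have hXX : (X : ℝ) ^ (1 / 6 + ε) ≤ X := hx1.trans hltr
        have h10 := b3 f hf hfE.2 hinj X le_rfl hXX y (by omega)
        unfold HLy at h10 ⊢
        refine h10.trans ?_
        rw [not_le] at hc
        rw [div_le_div_iff₀ (by positivity) (by positivity)]
        have h9 : Real.log X ^ (A + C + 2) = Real.log X ^ A * Real.log X ^ C * Real.log X ^ 2 := by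
          rw [pow_add, pow_add]
        rw [h9]
        have h10 : 0 < Real.log X ^ A := by positivity
        have h11 : 0 < Real.log X ^ C := by positivity
        have h12 : (4 : ℝ) ≤ Real.log X ^ 2 := by nlinarith
        calc (X : ℝ) * Real.log X ^ A ≤ (2 * x * Real.log X ^ C) * Real.log X ^ A :=
              mul_le_mul_of_nonneg_right hc.le h10.le
          _ = x * (Real.log X ^ A * Real.log X ^ C * 2) := by ring
          _ ≤ x * (Real.log X ^ A * Real.log X ^ C * Real.log X ^ 2) := by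
              refine mul_le_mul_of_nonneg_left ?_ hxr.le
              exact mul_le_mul_of_nonneg_left (by linarith) (by positivity)
    · have h10 := b3 f hf hfE.2 hinj x hge hx2 y hy
      unfold HLy at h10 ⊢
      refine h10.trans ?_
      have hLx : 1 ≤ Real.log x := hL1.trans (Real.log_le_log hXr (by exact_mod_cast hge))
      exact div_le_div_of_nonneg_left hxr.le (by positivity) (pow_le_pow_right₀ hLx (by omega))

/-- Sets. -/
theorem good_sets0 (m A K : ℕ) (ε : ℝ) (hε : 0 < ε) : ∃ x0 : ℕ, ∀ X : ℕ, x0 ≤ X → ∀ D : ℕ, (D : ℝ) ≤ Real.log X ^ K →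
    ∃ Y ⊆ (Icc 1 X).powersetCard D, (Y.card : ℝ) ≤ ((Icc 1 X).powersetCard D).card / Real.log X ^ A ∧
    ∀ S ∈ (Icc 1 X).powersetCard D, S ∉ Y → ∀ f : Fin m → ℕ, Function.Injective f → (∀ i, f i ∈ S) →
      ∀ x : ℕ, (X : ℝ) ^ (1 / 6 + ε) ≤ x → (x : ℝ) ^ (1 / 6 + ε) ≤ X → ∀ y : ℕ, y ≤ x →
        HLy (Fin.cons 0 f : Fin (m + 1) → ℕ) y (x / Real.log x ^ A) := by
  classical
  obtain ⟨x1, h1⟩ := all_x0 m (A + K * m) ε hε
  obtain ⟨x2, h2⟩ := eventually_atTop.mp (ev_log 12)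
  refine ⟨max (max x1 x2) 1, fun X hX D hD => ?_⟩
  obtain ⟨E, e1, e2, e3⟩ := h1 X (le_trans (le_trans (le_max_left _ _) (le_max_left _ _)) hX)
  have hL : 12 ≤ Real.log X := h2 X (le_trans (le_trans (le_max_right _ _) (le_max_left _ _)) hX)
  have hX1 : 1 ≤ X := le_trans (le_max_right _ _) hX
  have hXr : (0 : ℝ) < X := by exact_mod_cast hX1
  have hL0 : 0 < Real.log X := by linarith
  have hL1 : 1 ≤ Real.log X := by linarith
  set P : Finset (Fin m → ℕ) := E.filter Function.Injective with hP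
  set Y : Finset (Finset ℕ) := ((Icc 1 X).powersetCard D).filter (fun S => ∃ f ∈ P, ∀ i, f i ∈ S) with hY
  have hPc : (P.card : ℝ) ≤ (X : ℝ) ^ m / Real.log X ^ (A + K * m) := by
    refine le_trans ?_ e2
    exact_mod_cast Finset.card_filter_le _ _
  have hY2 := subsets_bad_r m (Icc 1 X) P D Y
    (fun f hf => ⟨(Finset.mem_filter.mp hf).2, Fintype.mem_piFinset.mp (e1 (Finset.mem_filter.mp hf).1)⟩)
    (fun S hS => ⟨(Finset.mem_filter.mp hS).1, (Finset.mem_filter.mp hS).2⟩)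
  rw [Nat.card_Icc, Nat.add_sub_cancel] at hY2
  refine ⟨Y, Finset.filter_subset _ _, ?_, fun S hS hSY f hf hfS x hx1 hx2 y hy => ?_⟩
  · have hN : (0 : ℝ) < (X : ℝ) ^ m := by positivity
    refine le_of_mul_le_mul_right (hY2.trans ?_) hN
    have h3 : (D : ℝ) ^ m ≤ Real.log X ^ (K * m) := by
      rw [pow_mul]
      exact pow_le_pow_left₀ (Nat.cast_nonneg _) hD _
    calc (D : ℝ) ^ m * P.card * ((Icc 1 X).powersetCard D).card ≤
        Real.log X ^ (K * m) * ((X : ℝ) ^ m / Real.log X ^ (A + K * m)) *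
          ((Icc 1 X).powersetCard D).card := by
          refine mul_le_mul_of_nonneg_right ?_ (Nat.cast_nonneg _)
          exact mul_le_mul h3 hPc (Nat.cast_nonneg _) (by positivity)
      _ = (((Icc 1 X).powersetCard D).card / Real.log X ^ A) * (X : ℝ) ^ m := by
          have p1 : 0 < Real.log X ^ A := by positivity
          have p2 : 0 < Real.log X ^ (K * m) := by positivity
          rw [pow_add (Real.log X) A]
          generalize Real.log X ^ A = a at p1 ⊢
          generalize Real.log X ^ (K * m) = b at p2 ⊢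
          field_simp
  · have hfE : f ∉ E := by
      intro h3
      apply hSY
      rw [hY, Finset.mem_filter]
      exact ⟨hS, f, Finset.mem_filter.mpr ⟨h3, hf⟩, hfS⟩
    have hST := (Finset.mem_powersetCard.mp hS).1
    have h4 := e3 f (Fintype.mem_piFinset.mpr fun i => hST (hfS i)) hfE hf x hx1 hx2 y hy
    unfold HLy at h4 ⊢
    refine h4.trans ?_
    have hXr1 : (1 : ℝ) ≤ X := by exact_mod_cast hX1
    have hx0 : (1 : ℝ) ≤ x := (Real.one_le_rpow hXr1 (by linarith)).trans hx1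
    have hlx : 1 ≤ Real.log x := by
      have h5 := Real.log_le_log (by positivity) hx1
      rw [Real.log_rpow hXr] at h5
      nlinarith
    exact div_le_div_of_nonneg_left (by linarith) (by positivity) (pow_le_pow_right₀ hlx (by omega))

/-- Sets, all lengths `≤ R`. -/
theorem good_sets0_all (R A K : ℕ) (ε : ℝ) (hε : 0 < ε) : ∃ x0 : ℕ, ∀ X : ℕ, x0 ≤ X → ∀ D : ℕ, (D : ℝ) ≤ Real.log X ^ K →
    ∃ Y ⊆ (Icc 1 X).powersetCard D, (Y.card : ℝ) ≤ ((Icc 1 X).powersetCard D).card / Real.log X ^ A ∧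
    ∀ S ∈ (Icc 1 X).powersetCard D, S ∉ Y → ∀ m : ℕ, m ≤ R → ∀ f : Fin m → ℕ, Function.Injective f → (∀ i, f i ∈ S) →
      ∀ x : ℕ, (X : ℝ) ^ (1 / 6 + ε) ≤ x → (x : ℝ) ^ (1 / 6 + ε) ≤ X → ∀ y : ℕ, y ≤ x →
        HLy (Fin.cons 0 f : Fin (m + 1) → ℕ) y (x / Real.log x ^ A) := by
  classical
  choose x0 h using fun m => good_sets0 m (A + 1) K ε hε
  obtain ⟨x1, h1⟩ := eventually_atTop.mp (ev_log (max 12 (R + 1)))
  refine ⟨max (∑ m ∈ range (R + 1), x0 m) (max x1 1), fun X hX D hD => ?_⟩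
  have hL' := h1 X (le_trans (le_trans (le_max_left _ _) (le_max_right _ _)) hX)
  have hL : 12 ≤ Real.log X := (le_max_left _ _).trans hL'
  have hLR : (R : ℝ) + 1 ≤ Real.log X := (le_max_right _ _).trans hL'
  have hX1 : 1 ≤ X := le_trans (le_trans (le_max_right _ _) (le_max_right _ _)) hX
  have hXr : (0 : ℝ) < X := by exact_mod_cast hX1
  have hL0 : 0 < Real.log X := by linarith
  have hL1 : 1 ≤ Real.log X := by linarith
  have hm : ∀ m : ℕ, ∃ Y ⊆ (Icc 1 X).powersetCard D, (Y.card : ℝ) ≤ ((Icc 1 X).powersetCard D).card / Real.log X ^ (A + 1) ∧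
      (m ≤ R → ∀ S ∈ (Icc 1 X).powersetCard D, S ∉ Y → ∀ f : Fin m → ℕ, Function.Injective f → (∀ i, f i ∈ S) →
        ∀ x : ℕ, (X : ℝ) ^ (1 / 6 + ε) ≤ x → (x : ℝ) ^ (1 / 6 + ε) ≤ X → ∀ y : ℕ, y ≤ x →
          HLy (Fin.cons 0 f : Fin (m + 1) → ℕ) y (x / Real.log x ^ (A + 1))) := by
    intro m
    by_cases hmR : m ≤ R
    · have h2 : x0 m ≤ X := by
        have h3 : x0 m ≤ ∑ m ∈ range (R + 1), x0 m :=
          Finset.single_le_sum (f := x0) (fun _ _ => Nat.zero_le _) (Finset.mem_range.mpr (by omega))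
        exact h3.trans (le_trans (le_max_left _ _) hX)
      obtain ⟨Y, a1, a2, a3⟩ := h m X h2 D hD
      exact ⟨Y, a1, a2, fun _ => a3⟩
    · refine ⟨∅, Finset.empty_subset _, ?_, fun h => absurd h hmR⟩
      rw [Finset.card_empty, Nat.cast_zero]
      positivity
  choose Y a1 a2 a3 using hm
  refine ⟨(range (R + 1)).biUnion Y, Finset.biUnion_subset.mpr fun m _ => a1 m, ?_,
    fun S hS hSY m hmR f hf hfS x hx1 hx2 y hy => ?_⟩
  · set N : ℝ := (((Icc 1 X).powersetCard D).card : ℝ) with hN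
    have hN0 : 0 ≤ N := Nat.cast_nonneg _
    calc (((range (R + 1)).biUnion Y).card : ℝ) ≤ ∑ m ∈ range (R + 1), ((Y m).card : ℝ) := by
          exact_mod_cast Finset.card_biUnion_le
      _ ≤ ∑ _m ∈ range (R + 1), N / Real.log X ^ (A + 1) := Finset.sum_le_sum fun m _ => a2 m
      _ = (R + 1 : ℝ) * (N / Real.log X ^ (A + 1)) := by
          rw [Finset.sum_const, Finset.card_range, nsmul_eq_mul]
          push_cast
          ring
      _ ≤ Real.log X * (N / Real.log X ^ (A + 1)) := mul_le_mul_of_nonneg_right hLR (by positivity)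
      _ = N / Real.log X ^ A := by
          rw [pow_succ]
          field_simp
  · have hne : S ∉ Y m := fun h => hSY (Finset.mem_biUnion.mpr ⟨m, Finset.mem_range.mpr (by omega), h⟩)
    have h4 := a3 m hmR S hS hne f hf hfS x hx1 hx2 y hy
    unfold HLy at h4 ⊢
    refine h4.trans ?_
    have hXr1 : (1 : ℝ) ≤ X := by exact_mod_cast hX1
    have hx0 : (1 : ℝ) ≤ x := (Real.one_le_rpow hXr1 (by linarith)).trans hx1
    have hlx : 1 ≤ Real.log x := by
      have h5 := Real.log_le_log (by positivity) hx1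
      rw [Real.log_rpow hXr] at h5
      nlinarith
    exact div_le_div_of_nonneg_left (by linarith) (by positivity) (pow_le_pow_right₀ hlx (by omega))

end Pool.Agent.SHZ
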