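import Pool.Agent.Lib.SHZ.Defs
import Pool.Agent.Lib.HLU.Trunc
import Pool.Agent.Lib.HLU.Abel

/-!
# Module Corr0: the correlations of `dg` on initial segments, classical

`L = log x`, `g = dg (zA A x) = ff (zA A x) / log` (`SHT.dg_eq`). `A, B'` from `HLU.sn_exists A0 B'`.
Partial summation (`HLU.abel_log`), Parseval and Cauchy.
-/

set_option autoImplicit false

open Finset Filter

namespace Pool.Agent.SHZ

open Pool.Agent.HLB Pool.Agent.HL Pool.Agent.HLT Pool.Agent.HLU Pool.Agent.VN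

lemma esum_dg (z y : ℕ) (E : ℝ) (α : ℝ) (h : ∀ y' ≤ y, ‖esum (ff z) y' α‖ ≤ E) :
    ‖esum (SHT.dg z) y α‖ ≤ 8 * E := by
  have h1 := abel_log (univ : Finset (Fin 1)) (fun _ => 0) (fun n => (ff z n : ℂ) * ex (n * α)) 0 E y
    (fun y' hy' => by
      have := h y' hy'
      unfold esum at this
      simpa using this) y le_rfl
  rw [zero_mul, sub_zero, norm_zero, add_zero] at h1
  have h2 : ∑ n ∈ Icc 1 y, (ff z n : ℂ) * ex (n * α) * (hl (univ : Finset (Fin 1)) (fun _ => 0) n : ℂ) =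
      esum (SHT.dg z) y α := by
    unfold esum
    refine Finset.sum_congr rfl fun n _ => ?_
    rw [SHT.dg_eq]
    unfold hl
    rw [Finset.univ_unique, Finset.prod_singleton, add_zero]
    push_cast
    ring
  rw [h2, Finset.card_univ, Fintype.card_fin] at h1
  norm_num at h1
  exact h1

lemma co_formula (x y d : ℕ) (hy : y ≤ x) (hd : d ≤ x) (g : ℕ → ℝ) :
    (co g y d : ℂ) = (1 / ((4 * x + 1 : ℕ) : ℂ)) * ∑ ξ ∈ range (4 * x + 1),
      ((‖esum g y (ξ / ((4 * x + 1 : ℕ) : ℝ))‖ ^ 2 : ℝ) : ℂ) * ex (d * (ξ / ((4 * x + 1 : ℕ) : ℝ))) := by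
  set g' : ℕ → ℝ := fun n => if n ≤ y then g n else 0 with hg'
  have h1 := corr_formula (4 * x + 1) x (by omega) (fun n => (g' n : ℂ)) g' d hd
  have e1 : ∀ α : ℝ, ∀ m : ℕ, y ≤ m → ∑ n ∈ Icc 1 m, (g' n : ℂ) * ex (n * α) = esum g y α := by
    intro α m hm
    unfold esum
    have hsub : Icc 1 y ⊆ Icc 1 m := Finset.Icc_subset_Icc_right hm
    rw [← Finset.sum_subset hsub]
    · refine Finset.sum_congr rfl fun n hn => ?_
      rw [Finset.mem_Icc] at hn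
      simp only [hg', if_pos hn.2]
    · intro n hn hn'
      rw [Finset.mem_Icc] at hn hn'
      have : ¬ n ≤ y := fun h => hn' ⟨hn.1, h⟩
      simp only [hg', if_neg this, Complex.ofReal_zero, zero_mul]
  have e2 : ∑ n ∈ Icc 1 x, (g' n : ℂ) * (g' (n + d) : ℂ) = (co g y d : ℂ) := by
    unfold co
    push_cast
    have hsub : Icc 1 (y - d) ⊆ Icc 1 x := Finset.Icc_subset_Icc_right (by omega)
    rw [← Finset.sum_subset hsub]
    · refine Finset.sum_congr rfl fun n hn => ?_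
      rw [Finset.mem_Icc] at hn
      simp only [hg']
      rw [if_pos (by omega), if_pos (by omega)]
    · intro n hn hn'
      rw [Finset.mem_Icc] at hn hn'
      have : ¬ n + d ≤ y := fun h => hn' ⟨hn.1, by omega⟩
      simp only [hg', if_neg this, Complex.ofReal_zero, mul_zero]
  rw [e2] at h1
  rw [h1]
  congr 1
  refine Finset.sum_congr rfl fun ξ _ => ?_
  rw [e1 _ x hy, e1 _ (2 * x) (by omega), Complex.mul_conj, Complex.normSq_eq_norm_sq]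

lemma sum_sq_le (x y : ℕ) (hy : y ≤ x) (g : ℕ → ℝ) (M : ℝ) (hM : ∀ α : ℝ, ‖esum g y α‖ ≤ M) :
    ∑ d ∈ Icc 1 x, co g y d ^ 2 ≤ M ^ 2 * ∑ n ∈ Icc 1 y, g n ^ 2 := by
  set N : ℕ := 4 * x + 1 with hN
  have hN0 : 0 < N := by omega
  have hNR : (0 : ℝ) < (N : ℝ) := by exact_mod_cast hN0
  set c : ℕ → ℝ := fun ξ => ‖esum g y (ξ / (N : ℝ))‖ ^ 2 with hc
  have hc0 : ∀ ξ, 0 ≤ c ξ := fun ξ => by positivity
  have hcM : ∀ ξ, c ξ ≤ M ^ 2 := fun ξ => pow_le_pow_left₀ (norm_nonneg _) (hM _) 2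
  have h1 : ∀ d ∈ Icc 1 x, co g y d ^ 2 =
      (1 / (N : ℝ)) ^ 2 * ‖∑ ξ ∈ range N, (c ξ : ℂ) * ex (-(d * (ξ / (N : ℝ))))‖ ^ 2 := by
    intro d hd
    rw [Finset.mem_Icc] at hd
    have h2 := co_formula x y d hy hd.2 g
    have h3 : ‖∑ ξ ∈ range N, (c ξ : ℂ) * ex (-(d * (ξ / (N : ℝ))))‖ =
        ‖∑ ξ ∈ range N, (c ξ : ℂ) * ex (d * (ξ / (N : ℝ)))‖ := by
      rw [← Complex.norm_conj, map_sum]
      congr 1
      refine Finset.sum_congr rfl fun ξ _ => ?_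
      rw [map_mul, Complex.conj_ofReal, ← ex_neg, neg_neg]
    rw [h3, ← sq_abs]
    have h4 : ‖(co g y d : ℂ)‖ = (1 / (N : ℝ)) * ‖∑ ξ ∈ range N, (c ξ : ℂ) * ex (d * (ξ / (N : ℝ)))‖ := by
      rw [h2, norm_mul]
      congr 1
      rw [norm_div, norm_one, Complex.norm_natCast]
    rw [Complex.norm_real, Real.norm_eq_abs] at h4
    rw [h4]
    ring
  have h5 := TruncAux.bessel hN0 (range N) (Finset.Subset.refl _) (fun ξ => (c ξ : ℂ))
  have h6 := parseval N y (by omega) hN0 (fun n => (g n : ℂ))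
  have h7 : ∑ ξ ∈ range N, c ξ = N * ∑ n ∈ Icc 1 y, g n ^ 2 := by
    have : ∀ n, ‖(g n : ℂ)‖ ^ 2 = g n ^ 2 := fun n => by
      rw [Complex.norm_real, Real.norm_eq_abs, sq_abs]
    simp only [this] at h6
    exact h6
  calc ∑ d ∈ Icc 1 x, co g y d ^ 2
      = ∑ d ∈ Icc 1 x, (1 / (N : ℝ)) ^ 2 *
          ‖∑ ξ ∈ range N, (c ξ : ℂ) * ex (-(d * (ξ / (N : ℝ))))‖ ^ 2 := Finset.sum_congr rfl h1
    _ ≤ ∑ d ∈ range N, (1 / (N : ℝ)) ^ 2 *
          ‖∑ ξ ∈ range N, (c ξ : ℂ) * ex (-(d * (ξ / (N : ℝ))))‖ ^ 2 := by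
        refine Finset.sum_le_sum_of_subset_of_nonneg ?_ fun i _ _ => by positivity
        intro d hd
        rw [Finset.mem_Icc] at hd
        rw [Finset.mem_range]
        omega
    _ = (1 / (N : ℝ)) ^ 2 * (N * ∑ ξ ∈ range N, ‖(c ξ : ℂ)‖ ^ 2) := by
        rw [← Finset.mul_sum, h5]
    _ = (1 / (N : ℝ)) * ∑ ξ ∈ range N, c ξ ^ 2 := by
        have : ∀ ξ, ‖(c ξ : ℂ)‖ ^ 2 = c ξ ^ 2 := fun ξ => by
          rw [Complex.norm_real, Real.norm_eq_abs, sq_abs]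
        simp only [this]
        field_simp
    _ ≤ (1 / (N : ℝ)) * ∑ ξ ∈ range N, M ^ 2 * c ξ := by
        refine mul_le_mul_of_nonneg_left (Finset.sum_le_sum fun ξ _ => ?_) (by positivity)
        rw [pow_two]
        exact mul_le_mul_of_nonneg_right (hcM ξ) (hc0 ξ)
    _ = M ^ 2 * ∑ n ∈ Icc 1 y, g n ^ 2 := by
        rw [← Finset.mul_sum, h7]
        field_simp

theorem cor0 (A0 B : ℕ) : ∃ A : ℕ, A0 ≤ A ∧ ∀ᶠ x : ℕ in atTop, ∀ y : ℕ, y ≤ x →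
    ∑ d ∈ Icc 1 x, |co (SHT.dg (zA A x)) y d| ≤ (x : ℝ) ^ 2 / Real.log x ^ B := by
  obtain ⟨A, hA, hSN⟩ := sn_exists A0 (B + 3)
  refine ⟨A, hA, ?_⟩
  filter_upwards [hSN, ev_log 8, DZ_inv_le A] with x hx hL hD
  intro y hy
  set L := Real.log (x : ℝ) with hLdef
  have hL0 : 0 < L := by linarith
  set g := SHT.dg (zA A x) with hg
  have h1 : ∀ α : ℝ, ‖esum g y α‖ ≤ 8 * (x / L ^ (B + 3)) := by
    intro α
    exact esum_dg (zA A x) y _ α (fun y' hy' => hx y' (by omega) α)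
  have h2 := sum_sq_le x y hy g _ h1
  have h3 : ∑ n ∈ Icc 1 y, g n ^ 2 ≤ x * L ^ 4 := by
    calc ∑ n ∈ Icc 1 y, g n ^ 2 ≤ ∑ n ∈ Icc 1 y, L ^ 4 := by
          refine Finset.sum_le_sum fun n _ => ?_
          have h4 : |g n| ≤ L ^ 2 := SHT.abs_dg_le (by linarith) hD n
          calc g n ^ 2 = |g n| ^ 2 := (sq_abs _).symm
            _ ≤ (L ^ 2) ^ 2 := pow_le_pow_left₀ (abs_nonneg _) h4 2
            _ = L ^ 4 := by ring
      _ = y * L ^ 4 := by rw [Finset.sum_const, Nat.card_Icc, nsmul_eq_mul]; simp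
      _ ≤ x * L ^ 4 := by
          have : (y : ℝ) ≤ x := by exact_mod_cast hy
          exact mul_le_mul_of_nonneg_right this (by positivity)
  have h5 : (∑ d ∈ Icc 1 x, |co g y d|) ^ 2 ≤ ((x : ℝ) ^ 2 / L ^ B) ^ 2 := by
    calc (∑ d ∈ Icc 1 x, |co g y d|) ^ 2
        ≤ (Icc 1 x).card * ∑ d ∈ Icc 1 x, |co g y d| ^ 2 := sq_sum_le_card_mul_sum_sq
      _ = x * ∑ d ∈ Icc 1 x, co g y d ^ 2 := by simp only [sq_abs, Nat.card_Icc, Nat.add_sub_cancel]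
      _ ≤ x * ((8 * (x / L ^ (B + 3))) ^ 2 * (x * L ^ 4)) := by
          refine mul_le_mul_of_nonneg_left (h2.trans ?_) (Nat.cast_nonneg _)
          exact mul_le_mul_of_nonneg_left h3 (by positivity)
      _ = ((x : ℝ) ^ 2 / L ^ B) ^ 2 * (8 / L) ^ 2 := by
          rw [pow_add L B 3]
          field_simp
      _ ≤ ((x : ℝ) ^ 2 / L ^ B) ^ 2 * 1 := by
          refine mul_le_mul_of_nonneg_left ?_ (by positivity)
          have : 8 / L ≤ 1 := by rw [div_le_one hL0]; exact hL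
          exact pow_le_one₀ (by positivity) this
      _ = ((x : ℝ) ^ 2 / L ^ B) ^ 2 := mul_one _
  exact (le_abs_self _).trans (abs_le_of_sq_le_sq h5 (by positivity))

end Pool.Agent.SHZ
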