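import Pool.Agent.Lib.SHT.Defs

/-!
# Tuples `(0, f)` in short ranges: definition

`co g y d` is the correlation with shift `d` on `[1, y]` (both arguments in `[1, y]`).
-/

set_option autoImplicit false

open Finset Filter

namespace Pool.Agent.SHZ

/-- The correlation on an initial segment. -/
noncomputable def co (g : ℕ → ℝ) (y d : ℕ) : ℝ := ∑ n ∈ Icc 1 (y - d), g n * g (n + d)

end Pool.Agent.SHZ
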