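import Pool.Agent.Lib.SHZ.Defs
import Pool.Agent.Lib.SHT.Brun

/-!
# Module Mix: the model with two sieve ranges

`L = log X`, `z' = zA A' x ≤ z = zA A X`, `s = Fin.cons 0 t : Fin (r + 1) → ℕ`. Adaptation of `Lib/SHT/Brun.lean` (`sieve_short`, `model_short`).
(1) `SHT.BrunAux.brun_y (r + 1) A (B1) (ε / 2)` with `F p = exr s p` for `p ≤ z'` and `F p = exr t p` for `z' < p ≤ z` (`exr` from `Lib/HLU/SieveY.lean`; `#(exr s p) = nuI s p`): for `n ≤ y`, `n % p ∉ F p` for all `p ≤ z`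
iff `n` has no prime factor `≤ z'` and no `n + t i` has a prime factor `≤ z`. So `∑_{n ≤ y} nuz z' n ∏_i nuz z (n + t i) = (DZ z')⁻¹ (DZ z)⁻¹^r · count`, main term `y M`,
`M = (DZ z')⁻¹ (DZ z)⁻¹^r ∏_{p ≤ z} (1 - #F p / p) = SZ z' s ∏_{z' < p ≤ z} locI t p`.
(2) `|M - SI s| ≤ SI s / L^(B+r+6)`-like: `SZ z' s` against `SI s` by `HLB.SI_le_SZ` (with `2 X` in place of `x`) and `HLB.SZ_le_SI`, as in the proof of `HLU.sing_strong` (`Lib/HLU/SingS.lean`), with
`z' ≥ (ε L)^A' - 1 ≥ L^(A' - 1)` (`log x ≥ ε L`); the product over `z' < p ≤ z` equals `SZ z t / SZ z' t` if `SI t ≠ 0`, and both are `SI t (1 + O(1 / L^..))` by the same lemmas. If `SI s = 0` or `SI t = 0`,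
then some `locI s p = 0` with `p ≤ r + 1 ≤ z'` (`nuI s p = p`; `HLB.c0_le_SI` shows that `SI ≠ 0` otherwise; `nuI t p = p` implies `nuI s p = p`), so `M = 0 = SI s`.
(3) Abel summation `HLU.abel_log_real` with `∏ G1 = (nuz z' n ∏ nuz z (n + t i)) hl univ s n` (`s 0 = 0`), as at the end of `SHT.model_short`.
-/

set_option autoImplicit false

open Finset Filter

namespace Pool.Agent.SHZ

open Pool.Agent.HLB Pool.Agent.HL Pool.Agent.HLT Pool.Agent.HLU Pool.Agent.VN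

namespace MixAux

/-- `HLU.sing_strong` with a free range of the sieve. -/
theorem sing_gen (r B : ℕ) : ∀ᶠ x : ℕ in atTop,
    ∀ (ι : Type) [Fintype ι] (t : ι → ℕ), Fintype.card ι = r → Function.Injective t →
      (∀ i, t i ≤ 2 * x) → ∀ z : ℕ, Real.log x ^ (B + 3) / 2 ≤ (z : ℝ) →
      |SZ z t - SI t| ≤ SI t / Real.log x ^ B := by
  filter_upwards [ev_log (32 * (r:ℝ) ^ 3 + 4 * (r:ℝ) ^ 2 + 2 * r + 4), eventually_ge_atTop 3]
    with x hL hx3 ι _ t hcard ht htx z hzge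
  set L := Real.log x with hLdef
  have hr0 : (0:ℝ) ≤ r := Nat.cast_nonneg r
  have hr2 : (0:ℝ) ≤ (r:ℝ) ^ 2 := by positivity
  have hr3 : (0:ℝ) ≤ (r:ℝ) ^ 3 := by positivity
  have hL4 : 4 ≤ L := by linarith
  have hL1 : 1 ≤ L := by linarith
  have hL0 : 0 < L := by linarith only [hL, hr2, hr3]
  have hLB : 0 < L ^ B := by positivity
  have hLB1 : 1 ≤ L ^ B := one_le_pow₀ hL1
  have hSI := SI_nonneg t ht
  by_cases hr : 1 ≤ r
  swap
  · have hr' : r = 0 := by omega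
    rw [SZ_zero t (by omega), SI_zero t (by omega)]
    simp only [sub_self, abs_zero]
    positivity
  have hx0 : (0:ℝ) < x := by
    have : 0 < x := by omega
    exact_mod_cast this
  have hzL : L ^ B * (L * L) ≤ (z : ℝ) := by
    have h1 : L ^ (B + 3) / 2 = L ^ B * (L * L) * (L / 2) := by ring
    have h2 : L ^ B * (L * L) * 1 ≤ L ^ B * (L * L) * (L / 2) := by
      apply mul_le_mul_of_nonneg_left _ (by positivity)
      linarith only [hL, hr2, hr3]
    linarith only [hzge, h1, h2]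
  have hzL1 : L ≤ (z : ℝ) := by
    have h1 : L * 1 ≤ L * L := mul_le_mul_of_nonneg_left hL1 hL0.le
    have h2 : 1 * (L * L) ≤ L ^ B * (L * L) := mul_le_mul_of_nonneg_right hLB1 (by positivity)
    linarith only [hzL, h1, h2]
  have hzr : r ≤ z := by
    have : (r : ℝ) ≤ (z : ℝ) := by linarith only [hL, hr2, hr3, hzL1]
    exact_mod_cast this
  have hz4 : (4:ℝ) ≤ (z : ℝ) := by linarith only [hL, hr2, hr3, hzL1]
  have hz4n : 4 ≤ z := by exact_mod_cast hz4
  have hzpos : (0:ℝ) < z := by linarith only [hL, hr2, hr3, hzL1]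
  have hlogz : 1 ≤ Real.log (z : ℝ) := by
    rw [Real.le_log_iff_exp_le hzpos]
    have := Real.exp_one_lt_d9
    linarith only [hL, hr2, hr3, hzL1, this]
  have hSZ := SZ_nonneg (z) t
  have hlog1 : Real.log ((2 * x + 1 : ℕ) : ℝ) ≤ 2 * L := by
    have h2 : ((2 * x + 1 : ℕ) : ℝ) ≤ (x:ℝ) ^ 2 := by
      have h3 : 2 * x + 1 ≤ x ^ 2 := by nlinarith only [hx3]
      exact_mod_cast h3
    calc Real.log ((2 * x + 1 : ℕ) : ℝ) ≤ Real.log ((x:ℝ) ^ 2) :=
          Real.log_le_log (by (clear * - hx3; positivity)) h2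
      _ = 2 * L := by rw [Real.log_pow]; norm_num [hLdef]
  have hlog0 : 0 ≤ Real.log ((2 * x + 1 : ℕ) : ℝ) := Real.log_natCast_nonneg _
  set ε : ℝ := 1 / L ^ B with hε
  have hε0 : 0 < ε := by (clear * - hL4; positivity)
  have hε1 : ε ≤ 1 := by
    rw [hε, div_le_one hLB]
    exact hLB1
  have hεz : 1 / (z : ℝ) ≤ ε * (1 / (L * L)) := by
    have h1 : ε * (1 / (L * L)) = 1 / (L ^ B * (L * L)) := by
      rw [hε, one_div_mul_one_div]
    rw [h1]
    exact one_div_le_one_div_of_le (by (clear * - hL4; positivity)) hzL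
  have hupper : SI t ≤ (1 + ε) * SZ z t := by
    have h1 := SI_le_SZ t (by rw [hcard]; exact hr) ht (2 * x) (z) (by omega) htx
    rw [hcard] at h1
    refine h1.trans ?_
    rw [mul_comm]
    apply mul_le_mul_of_nonneg_right _ hSZ
    have hE : 2 * (r:ℝ) ^ 3 * Real.log ((2 * x + 1 : ℕ) : ℝ) /
        ((z : ℝ) * Real.log (z : ℝ)) ≤ ε / 2 := by
      calc 2 * (r:ℝ) ^ 3 * Real.log ((2 * x + 1 : ℕ) : ℝ) /
            ((z : ℝ) * Real.log (z : ℝ))
          ≤ 2 * (r:ℝ) ^ 3 * (2 * L) / ((z : ℝ) * 1) := by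
            gcongr
        _ = 4 * (r:ℝ) ^ 3 * L * (1 / (z : ℝ)) := by
            rw [mul_one]
            ring
        _ ≤ 4 * (r:ℝ) ^ 3 * L * (ε * (1 / (L * L))) := by
            apply mul_le_mul_of_nonneg_left hεz
            (clear * - hL4 hr; positivity)
        _ = ε * (4 * (r:ℝ) ^ 3 / L) := by
            field_simp
        _ ≤ ε * (1 / 2) := by
            apply mul_le_mul_of_nonneg_left _ hε0.le
            rw [div_le_iff₀ hL0]
            linarith only [hL, hr2, hr3]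
        _ = ε / 2 := by ring
    have hE0 : 0 ≤ 2 * (r:ℝ) ^ 3 * Real.log ((2 * x + 1 : ℕ) : ℝ) /
        ((z : ℝ) * Real.log (z : ℝ)) := by
      have : 0 < Real.log (z : ℝ) := by linarith only [hlogz]
      (clear * - hr hz4n hlogz; positivity)
    have h2 := exp_le_two hE0 (by linarith only [hε1, hE])
    linarith only [hE, h2]
  have hlower : SZ z t ≤ (1 + ε) * SI t := by
    have h1 := SZ_le_SI t ht (z) (by omega) (by rw [hcard]; exact hzr)
    rw [hcard] at h1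
    have h2 : (r:ℝ) ^ 2 / (z : ℝ) ≤ ε / 2 := by
      calc (r:ℝ) ^ 2 / (z : ℝ) = (r:ℝ) ^ 2 * (1 / (z : ℝ)) := by ring
        _ ≤ (r:ℝ) ^ 2 * (ε * (1 / (L * L))) := by gcongr
        _ = ε * ((r:ℝ) ^ 2 / (L * L)) := by ring
        _ ≤ ε * (1 / 2) := by
            apply mul_le_mul_of_nonneg_left _ hε0.le
            rw [div_le_iff₀ (by (clear * - hL4; positivity))]
            have h5 : L * 1 ≤ L * L := mul_le_mul_of_nonneg_left hL1 hL0.le
            linarith only [hL, hr2, hr3, h5]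
        _ = ε / 2 := by ring
    have h3 : 1 ≤ (1 + ε) * (1 - (r:ℝ) ^ 2 / (z : ℝ)) := by
      have h4 : (1 + ε) * (1 - ε / 2) ≤ (1 + ε) * (1 - (r:ℝ) ^ 2 / (z : ℝ)) := by
        apply mul_le_mul_of_nonneg_left _ (by linarith only [hε0])
        linarith only [h2]
      have h5 : 1 ≤ (1 + ε) * (1 - ε / 2) := by nlinarith only [hε0, hε1]
      linarith only [h4, h5]
    calc SZ z t = SZ z t * 1 := (mul_one _).symm
      _ ≤ SZ z t * ((1 + ε) * (1 - (r:ℝ) ^ 2 / (z : ℝ))) := by gcongr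
      _ = (1 + ε) * (SZ z t * (1 - (r:ℝ) ^ 2 / (z : ℝ))) := by ring
      _ ≤ (1 + ε) * SI t := by gcongr
  have hfin : |SZ z t - SI t| ≤ ε * SI t := by
    rw [abs_le]
    constructor
    · have h2 : (1 - ε) * SI t ≤ SZ z t := by
        calc (1 - ε) * SI t ≤ (1 - ε) * ((1 + ε) * SZ z t) := by
                apply mul_le_mul_of_nonneg_left hupper (by linarith only [hε1])
            _ = (1 - ε ^ 2) * SZ z t := by ring
            _ ≤ 1 * SZ z t := by
                apply mul_le_mul_of_nonneg_right _ hSZ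
                nlinarith
            _ = SZ z t := one_mul _
      linarith only [h2]
    · linarith only [hlower]
  calc |SZ z t - SI t| ≤ ε * SI t := hfin
    _ = SI t / L ^ B := by rw [hε]; ring


lemma primesLE_filter {z' z : ℕ} (h : z' ≤ z) :
    (Nat.primesLE z).filter (fun p => p ≤ z') = Nat.primesLE z' := by
  ext p
  rw [Finset.mem_filter, Nat.mem_primesLE, Nat.mem_primesLE]
  constructor
  · rintro ⟨⟨_, h2⟩, h3⟩
    exact ⟨h3, h2⟩
  · rintro ⟨h1, h2⟩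
    exact ⟨⟨h1.trans h, h2⟩, h1⟩

/-- Excluded residues. -/
def FF {r : ℕ} (t : Fin r → ℕ) (z' p : ℕ) : Finset ℕ :=
  if p ≤ z' then SieveYAux.exr (Fin.cons 0 t : Fin (r + 1) → ℕ) p else SieveYAux.exr t p

/-- The primes `z' < p ≤ z`. -/
noncomputable def PP (z' z : ℕ) : Finset ℕ := (Nat.primesLE z).filter (fun p => ¬ p ≤ z')

/-- The mixed model. -/
noncomputable def pM {r : ℕ} (z' z : ℕ) (t : Fin r → ℕ) (n : ℕ) : ℝ :=
  nuz z' n * ∏ i, nuz z (n + t i)

lemma pM_hl {r : ℕ} (z' z : ℕ) (t : Fin r → ℕ) (n : ℕ) :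
    pM z' z t n * hl univ (Fin.cons 0 t : Fin (r + 1) → ℕ) n =
      G1 z' n * ∏ i, G1 z (n + t i) := by
  unfold pM hl G1
  rw [Fin.prod_univ_succ, Finset.prod_mul_distrib]
  simp only [Fin.cons_zero, Fin.cons_succ, add_zero]
  ring

lemma pM_eq {r : ℕ} {z' z : ℕ} (h : z' ≤ z) (t : Fin r → ℕ) (n : ℕ) :
    pM z' z t n = (DZ z')⁻¹ * (DZ z)⁻¹ ^ r *
      (if ∀ p ∈ Nat.primesLE z, n % p ∉ FF t z' p then 1 else 0) := by
  classical
  unfold pM nuz
  rw [Finset.prod_mul_distrib, Finset.prod_const, Finset.card_univ, Fintype.card_fin]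
  have key : ic z' n * ∏ i, ic z (n + t i) =
      (if ∀ p ∈ Nat.primesLE z, n % p ∉ FF t z' p then 1 else 0) := by
    split_ifs with hh
    · have h1 : ic z' n = 1 := by
        unfold ic
        rw [if_pos]
        intro p hp hd
        have hp' := Nat.mem_primesLE.1 hp
        have hp0 : 0 < p := hp'.2.pos
        refine hh p (Nat.mem_primesLE.2 ⟨hp'.1.trans h, hp'.2⟩) ?_
        unfold FF
        rw [if_pos hp'.1]
        have h2 : n % p = negres p ((Fin.cons 0 t : Fin (r + 1) → ℕ) 0) := by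
          rw [← dvd_add_iff_negres hp0, Fin.cons_zero, add_zero]
          exact hd
        rw [h2]
        exact Finset.mem_image_of_mem _ (Finset.mem_univ _)
      have h2 : ∀ i, ic z (n + t i) = 1 := by
        intro i
        unfold ic
        rw [if_pos]
        intro p hp hd
        have hp' := Nat.mem_primesLE.1 hp
        have hp0 : 0 < p := hp'.2.pos
        refine hh p hp ?_
        unfold FF
        rw [(dvd_add_iff_negres hp0 n (t i)).mp hd]
        split_ifs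
        · have h3 : negres p (t i) = negres p ((Fin.cons 0 t : Fin (r + 1) → ℕ) i.succ) := by
            rw [Fin.cons_succ]
          rw [h3]
          exact Finset.mem_image_of_mem _ (Finset.mem_univ _)
        · exact Finset.mem_image_of_mem _ (Finset.mem_univ i)
      rw [h1, one_mul]
      exact Finset.prod_eq_one fun i _ => h2 i
    · push Not at hh
      obtain ⟨p, hp, hm⟩ := hh
      have hp' := Nat.mem_primesLE.1 hp
      have hp0 : 0 < p := hp'.2.pos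
      have hz : ∀ i, p ∣ n + t i → ic z' n * ∏ i, ic z (n + t i) = 0 := by
        intro i hi
        have h4 : ic z (n + t i) = 0 := by
          unfold ic
          rw [if_neg]
          exact fun h2 => h2 p hp hi
        rw [Finset.prod_eq_zero (Finset.mem_univ i) h4, mul_zero]
      unfold FF at hm
      split_ifs at hm with hle
      · obtain ⟨j, -, hj⟩ := Finset.mem_image.mp hm
        have h3 := (dvd_add_iff_negres hp0 n ((Fin.cons 0 t : Fin (r + 1) → ℕ) j)).mpr hj.symm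
        induction j using Fin.cases with
        | zero =>
          rw [Fin.cons_zero, add_zero] at h3
          have h4 : ic z' n = 0 := by
            unfold ic
            rw [if_neg]
            exact fun h2 => h2 p (Nat.mem_primesLE.2 ⟨hle, hp'.2⟩) h3
          rw [h4, zero_mul]
        | succ i =>
          rw [Fin.cons_succ] at h3
          exact hz i h3
      · obtain ⟨i, -, hi⟩ := Finset.mem_image.mp hm
        exact hz i ((dvd_add_iff_negres hp0 n (t i)).mpr hi.symm)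
  calc (DZ z')⁻¹ * ic z' n * ((DZ z)⁻¹ ^ r * ∏ i, ic z (n + t i)) =
      (DZ z')⁻¹ * (DZ z)⁻¹ ^ r * (ic z' n * ∏ i, ic z (n + t i)) := by ring
    _ = _ := by rw [key]

lemma card_FF {r : ℕ} (t : Fin r → ℕ) (z' : ℕ) {p : ℕ} (hp : 0 < p) :
    FF t z' p ⊆ range p ∧ (FF t z' p).card ≤ r + 1 := by
  unfold FF
  split_ifs
  · refine ⟨SieveYAux.exr_subset _ hp, ?_⟩
    rw [SieveYAux.card_exr _ hp]
    have := nuI_le (Fin.cons 0 t : Fin (r + 1) → ℕ) p
    rwa [Fintype.card_fin] at this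
  · refine ⟨SieveYAux.exr_subset _ hp, ?_⟩
    rw [SieveYAux.card_exr _ hp]
    have := nuI_le t p
    rw [Fintype.card_fin] at this
    omega

lemma M_eq {r : ℕ} {z' z : ℕ} (h : z' ≤ z) (t : Fin r → ℕ) :
    (DZ z')⁻¹ * (DZ z)⁻¹ ^ r * ∏ p ∈ Nat.primesLE z, (1 - ((FF t z' p).card : ℝ) / p) =
      SZ z' (Fin.cons 0 t : Fin (r + 1) → ℕ) * ∏ p ∈ PP z' z, locI t p := by
  classical
  have e1 : ∏ p ∈ Nat.primesLE z, (1 - ((FF t z' p).card : ℝ) / p) =
      (∏ p ∈ Nat.primesLE z', (1 - (nuI (Fin.cons 0 t : Fin (r + 1) → ℕ) p : ℝ) / p)) *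
        ∏ p ∈ PP z' z, (1 - (nuI t p : ℝ) / p) := by
    rw [← Finset.prod_filter_mul_prod_filter_not (Nat.primesLE z) (fun p => p ≤ z'),
      primesLE_filter h]
    congr 1
    · refine Finset.prod_congr rfl fun p hp => ?_
      have hp' := Nat.mem_primesLE.1 hp
      unfold FF
      rw [if_pos hp'.1, SieveYAux.card_exr _ hp'.2.pos]
    · unfold PP
      refine Finset.prod_congr rfl fun p hp => ?_
      rw [Finset.mem_filter, Nat.mem_primesLE] at hp
      unfold FF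
      rw [if_neg hp.2, SieveYAux.card_exr _ hp.1.2.pos]
  have e2 : DZ z = DZ z' * ∏ p ∈ PP z' z, (1 - 1 / (p : ℝ)) := by
    unfold DZ PP
    rw [← Finset.prod_filter_mul_prod_filter_not (Nat.primesLE z) (fun p => p ≤ z'),
      primesLE_filter h]
  have e3 : SZ z' (Fin.cons 0 t : Fin (r + 1) → ℕ) =
      (∏ p ∈ Nat.primesLE z', (1 - (nuI (Fin.cons 0 t : Fin (r + 1) → ℕ) p : ℝ) / p)) *
        (DZ z')⁻¹ ^ (r + 1) := by
    unfold SZ locI DZ
    rw [Finset.prod_mul_distrib, Finset.prod_pow, Finset.prod_inv_distrib, Fintype.card_fin]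
  have e4 : ∏ p ∈ PP z' z, locI t p = (∏ p ∈ PP z' z, (1 - (nuI t p : ℝ) / p)) *
      (∏ p ∈ PP z' z, (1 - 1 / (p : ℝ)))⁻¹ ^ r := by
    unfold locI
    rw [Finset.prod_mul_distrib, Finset.prod_pow, Finset.prod_inv_distrib, Fintype.card_fin]
  rw [e1, e3, e4, e2, mul_inv, mul_pow, pow_succ]
  ring

lemma SZ_split {ι : Type} [Fintype ι] {z' z : ℕ} (h : z' ≤ z) (t : ι → ℕ) :
    SZ z t = SZ z' t * ∏ p ∈ PP z' z, locI t p := by
  classical
  unfold SZ PP
  rw [← Finset.prod_filter_mul_prod_filter_not (Nat.primesLE z) (fun p => p ≤ z'),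
    primesLE_filter h]

lemma nuI_le_cons {r : ℕ} (t : Fin r → ℕ) (p : ℕ) :
    nuI t p ≤ nuI (Fin.cons 0 t : Fin (r + 1) → ℕ) p := by
  classical
  unfold nuI
  apply Finset.card_le_card
  intro u hu
  obtain ⟨i, -, rfl⟩ := Finset.mem_image.mp hu
  refine Finset.mem_image.mpr ⟨i.succ, Finset.mem_univ _, ?_⟩
  rw [Fin.cons_succ]

lemma quot_bound {a b c q δ : ℝ} (hc : 0 < c) (hδ0 : 0 ≤ δ) (hδ : δ ≤ 1 / 4) (ha : |a - c| ≤ c * δ)
    (hb : |b - c| ≤ c * δ) (hq : b = a * q) : |q - 1| ≤ 4 * δ := by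
  obtain ⟨a1, a2⟩ := abs_le.1 ha
  obtain ⟨b1, b2⟩ := abs_le.1 hb
  have ha0 : 0 < a := by nlinarith
  rw [abs_le]
  constructor
  · by_contra hcon
    push Not at hcon
    have h1 : q < 1 - 4 * δ := by linarith
    have h2 : a * q < a * (1 - 4 * δ) := mul_lt_mul_of_pos_left h1 ha0
    nlinarith
  · by_contra hcon
    push Not at hcon
    have h1 : 1 + 4 * δ < q := by linarith
    have h2 : a * (1 + 4 * δ) < a * q := mul_lt_mul_of_pos_left h1 ha0
    nlinarith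

/-- The main term against the singular series. -/
lemma M_sub {r : ℕ} {z' z : ℕ} (h : z' ≤ z) (t : Fin r → ℕ)
    (hinj : Function.Injective (Fin.cons 0 t : Fin (r + 1) → ℕ)) (hr : r ≤ z') {δ : ℝ}
    (hδ0 : 0 ≤ δ) (hδ : δ ≤ 1 / 4)
    (h1 : |SZ z' (Fin.cons 0 t : Fin (r + 1) → ℕ) - SI (Fin.cons 0 t : Fin (r + 1) → ℕ)| ≤
      SI (Fin.cons 0 t : Fin (r + 1) → ℕ) * δ)
    (h2 : |SZ z' t - SI t| ≤ SI t * δ) (h3 : |SZ z t - SI t| ≤ SI t * δ) :
    |SZ z' (Fin.cons 0 t : Fin (r + 1) → ℕ) * ∏ p ∈ PP z' z, locI t p -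
      SI (Fin.cons 0 t : Fin (r + 1) → ℕ)| ≤ SI (Fin.cons 0 t : Fin (r + 1) → ℕ) * (6 * δ) := by
  classical
  have ht : Function.Injective t := by
    intro i j hij
    have h4 : (Fin.cons 0 t : Fin (r + 1) → ℕ) i.succ = (Fin.cons 0 t : Fin (r + 1) → ℕ) j.succ := by
      rw [Fin.cons_succ, Fin.cons_succ]
      exact hij
    exact Fin.succ_injective _ (hinj h4)
  have hS0 := SI_nonneg _ hinj
  rcases (SI_nonneg t ht).eq_or_lt with h0 | hpos
  · -- the singular series of `t` vanishes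
    have hr1 : 1 ≤ r := by
      by_contra hcon
      have : r = 0 := by omega
      have h5 := SI_zero t (by rw [Fintype.card_fin]; exact this)
      rw [h5] at h0
      norm_num at h0
    have hex : ∃ p : ℕ, p.Prime ∧ p ≤ nuI t p := by
      by_contra hcon
      push Not at hcon
      have h5 := c0_le_SI t ht (by rw [Fintype.card_fin]; exact hr1) hcon
      rw [← h0] at h5
      have h6 := Pool.Agent.Lib.Sieve4.c0_pos (Fintype.card (Fin r))
        (by rw [Fintype.card_fin]; exact hr1)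
      linarith
    obtain ⟨p, hp, hpn⟩ := hex
    have h5 : p ≤ nuI (Fin.cons 0 t : Fin (r + 1) → ℕ) p := hpn.trans (nuI_le_cons t p)
    have h6 := SI_eq_zero _ hinj hp h5
    have h7 : nuI (Fin.cons 0 t : Fin (r + 1) → ℕ) p = p := le_antisymm (nuI_le_prime _ hp) h5
    have h8 : locI (Fin.cons 0 t : Fin (r + 1) → ℕ) p = 0 := by
      unfold locI
      rw [h7, div_self (by exact_mod_cast hp.ne_zero), sub_self, zero_mul]
    have h9 : p ≤ r := by
      have := nuI_le t p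
      rw [Fintype.card_fin] at this
      exact hpn.trans this
    have h10 : SZ z' (Fin.cons 0 t : Fin (r + 1) → ℕ) = 0 :=
      Finset.prod_eq_zero (Nat.mem_primesLE.2 ⟨h9.trans hr, hp⟩) h8
    rw [h10, h6]
    simp
  · have hq := quot_bound (q := ∏ p ∈ PP z' z, locI t p) hpos hδ0 hδ h2 h3 (SZ_split h t)
    obtain ⟨Q, hQ⟩ : ∃ Q, Q = ∏ p ∈ PP z' z, locI t p := ⟨_, rfl⟩
    obtain ⟨S, hS⟩ : ∃ S, S = SI (Fin.cons 0 t : Fin (r + 1) → ℕ) := ⟨_, rfl⟩
    obtain ⟨Z, hZ⟩ : ∃ Z, Z = SZ z' (Fin.cons 0 t : Fin (r + 1) → ℕ) := ⟨_, rfl⟩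
    rw [← hQ] at hq ⊢
    rw [← hS, ← hZ] at h1 ⊢
    rw [← hS] at hS0
    have e : Z * Q - S = (Z - S) * Q + S * (Q - 1) := by ring
    obtain ⟨q1, q2⟩ := abs_le.1 hq
    have hQ0 : 0 ≤ Q := by linarith
    rw [e]
    refine (abs_add_le _ _).trans ?_
    rw [abs_mul, abs_mul, abs_of_nonneg hQ0, abs_of_nonneg hS0]
    have g1 : |Z - S| * Q ≤ S * δ * 2 := by
      apply mul_le_mul h1 (by linarith) hQ0 (by positivity)
    have g2 : S * |Q - 1| ≤ S * (4 * δ) := mul_le_mul_of_nonneg_left hq hS0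
    linarith

lemma alg1 {L : ℝ} (hL : 0 < L) (r B : ℕ) (y E : ℝ) : L ^ (r + 1) * (y / L ^ (B + r + 6) + E) =
    y / L ^ (B + 5) + E * L ^ (B + r + 6) / L ^ (B + 5) := by
  have h : L ^ (B + r + 6) = L ^ (r + 1) * L ^ (B + 5) := by
    rw [← pow_add]
    congr 1
    omega
  rw [h]
  obtain ⟨P, hP⟩ : ∃ P, P = L ^ (r + 1) := ⟨_, rfl⟩
  obtain ⟨Q, hQ⟩ : ∃ Q, Q = L ^ (B + 5) := ⟨_, rfl⟩
  have hP0 : P ≠ 0 := by rw [hP]; positivity
  have hQ0 : Q ≠ 0 := by rw [hQ]; positivity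
  rw [← hP, ← hQ]
  field_simp

lemma alg2 {L : ℝ} (hL : 0 < L) (r B : ℕ) (x : ℝ) :
    x * (L ^ (r + 2) * (6 * (1 / L ^ (B + r + 8)))) = x / L ^ (B + 5) * (6 / L) := by
  have h : L ^ (B + r + 8) = L ^ (r + 2) * L ^ (B + 5) * L := by
    rw [← pow_add, ← pow_succ]
    congr 1
    omega
  rw [h]
  obtain ⟨P, hP⟩ : ∃ P, P = L ^ (r + 2) := ⟨_, rfl⟩
  obtain ⟨Q, hQ⟩ : ∃ Q, Q = L ^ (B + 5) := ⟨_, rfl⟩
  have hP0 : P ≠ 0 := by rw [hP]; positivity
  have hQ0 : Q ≠ 0 := by rw [hQ]; positivity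
  rw [← hP, ← hQ]
  field_simp

end MixAux

open MixAux in
theorem mix (r B : ℕ) (ε : ℝ) (hε : 0 < ε) : ∃ A0 : ℕ, ∀ A' A : ℕ, A0 ≤ A' → A' ≤ A → ∀ᶠ X : ℕ in atTop,
    ∀ t : Fin r → ℕ, Function.Injective (Fin.cons 0 t : Fin (r + 1) → ℕ) → (∀ i, t i ≤ 2 * X) →
    ∀ x : ℕ, (X : ℝ) ^ ε ≤ x → x ≤ X → ∀ y : ℕ, y ≤ x →
      |∑ n ∈ Icc 1 y, G1 (zA A' x) n * ∏ i, G1 (zA A X) (n + t i) -
        SI (Fin.cons 0 t : Fin (r + 1) → ℕ) * ∑ n ∈ Icc 2 y, hl univ (Fin.cons 0 t : Fin (r + 1) → ℕ) n| ≤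
        x / Real.log X ^ B := by
  classical
  refine ⟨B + r + 12, fun A' A hA' hAA => ?_⟩
  have hε2 : 0 < ε / 2 := half_pos hε
  filter_upwards [SHT.BrunAux.brun_y (r + 1) A (B + r + 6) (ε / 2) hε2,
    sing_gen r (B + r + 8), sing_gen (r + 1) (B + r + 8), sing_upper (r + 1), DZ_inv_le A,
    SHT.BrunAux.ev_rpow (B + r + 6) (ε / 2) hε2, SHT.BrunAux.ev_rpow (r + 2 + (B + 5)) ε hε,
    ev_log (2 ^ (r + 6)), ev_log (r + 8 : ℝ), ev_log (2 * (ε ^ A')⁻¹ + 2), ev_log (1 / ε + 1),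
    eventually_ge_atTop 3] with X h1 h2 h2' h3 hD h4 h5 h6 h6' h7 h8 hX3
  intro t hinj htX x hx hxX y hy
  set L := Real.log (X : ℝ) with hL
  obtain ⟨s, hs⟩ : ∃ s : Fin (r + 1) → ℕ, s = Fin.cons 0 t := ⟨_, rfl⟩
  have hX0 : (0 : ℝ) < X := by exact_mod_cast (by omega : 0 < X)
  have h2r : (1 : ℝ) ≤ 2 ^ (r + 6) := one_le_pow₀ (by norm_num)
  have hL1 : 1 ≤ L := h2r.trans h6
  have hL0 : 0 < L := by linarith
  have hr0 : (0 : ℝ) ≤ r := Nat.cast_nonneg r
  have hx0 : (0 : ℝ) < x := lt_of_lt_of_le (by positivity) hx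
  have hlx : ε * L ≤ Real.log x := by
    rw [hL, ← Real.log_rpow hX0]
    exact Real.log_le_log (by positivity) hx
  have hlx1 : 1 ≤ Real.log x := by
    refine le_trans ?_ hlx
    have h9 : 1 / ε ≤ L := by linarith
    rw [div_le_iff₀ hε] at h9
    linarith
  have hlxX : Real.log x ≤ L := Real.log_le_log hx0 (by exact_mod_cast hxX)
  obtain ⟨z', hz'⟩ : ∃ z', z' = zA A' x := ⟨_, rfl⟩
  obtain ⟨z, hz⟩ : ∃ z, z = zA A X := ⟨_, rfl⟩
  have hzz : z' ≤ z := by
    rw [hz', hz]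
    unfold zA
    apply Nat.floor_le_floor
    calc Real.log x ^ A' ≤ L ^ A' := pow_le_pow_left₀ (by linarith) hlxX A'
      _ ≤ L ^ A := pow_le_pow_right₀ hL1 hAA
  have hz'ge : L ^ (B + r + 8 + 3) / 2 ≤ (z' : ℝ) := by
    have g1 : Real.log x ^ A' - 1 < (z' : ℝ) := by
      rw [hz']
      unfold zA
      exact Nat.sub_one_lt_floor _
    have g2 : (ε * L) ^ A' ≤ Real.log x ^ A' := pow_le_pow_left₀ (by positivity) hlx A'
    have g3 : L ^ (B + r + 8 + 3) ≤ (ε * L) ^ A' := by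
      have g4 : L ^ (B + r + 8 + 3) * L ≤ L ^ A' := by
        rw [← pow_succ]
        exact pow_le_pow_right₀ hL1 (by omega)
      have g5 : (ε ^ A')⁻¹ ≤ L := by
        have : 0 < (ε ^ A')⁻¹ := by positivity
        linarith
      have g6 : 1 ≤ ε ^ A' * L := by
        have g7 : 0 < ε ^ A' := by positivity
        rw [inv_le_iff_one_le_mul₀ g7] at g5
        linarith
      have g8 : 0 < L ^ (B + r + 8 + 3) := by positivity
      rw [mul_pow]
      calc L ^ (B + r + 8 + 3) = L ^ (B + r + 8 + 3) * 1 := (mul_one _).symm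
        _ ≤ L ^ (B + r + 8 + 3) * (ε ^ A' * L) := mul_le_mul_of_nonneg_left g6 g8.le
        _ = ε ^ A' * (L ^ (B + r + 8 + 3) * L) := by ring
        _ ≤ ε ^ A' * L ^ A' := mul_le_mul_of_nonneg_left g4 (by positivity)
    have g9 : 2 ≤ L ^ (B + r + 8 + 3) := by
      calc (2 : ℝ) ≤ L := by
            have : 0 < (ε ^ A')⁻¹ := by positivity
            linarith
        _ = L ^ 1 := (pow_one _).symm
        _ ≤ L ^ (B + r + 8 + 3) := pow_le_pow_right₀ hL1 (by omega)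
    linarith
  have hzge : L ^ (B + r + 8 + 3) / 2 ≤ (z : ℝ) := hz'ge.trans (by exact_mod_cast hzz)
  have hrz : r ≤ z' := by
    have g1 : (r : ℝ) ≤ z' := by
      refine le_trans ?_ hz'ge
      have g2 : L * L ≤ L ^ (B + r + 8 + 3) := by
        rw [← pow_two]
        exact pow_le_pow_right₀ hL1 (by omega)
      nlinarith
    exact_mod_cast g1
  have ht : Function.Injective t := by
    intro i j hij
    have h9 : (Fin.cons 0 t : Fin (r + 1) → ℕ) i.succ = (Fin.cons 0 t : Fin (r + 1) → ℕ) j.succ := by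
      rw [Fin.cons_succ, Fin.cons_succ]
      exact hij
    exact Fin.succ_injective _ (hinj h9)
  have hsX : ∀ i, (Fin.cons 0 t : Fin (r + 1) → ℕ) i ≤ 2 * X := by
    intro i
    induction i using Fin.cases with
    | zero =>
      rw [Fin.cons_zero]
      omega
    | succ i =>
      rw [Fin.cons_succ]
      exact htX i
  have hSI := SI_nonneg _ hinj
  have hSIu : SI (Fin.cons 0 t : Fin (r + 1) → ℕ) ≤ L ^ (r + 2) :=
    h3 (Fin (r + 1)) _ (Fintype.card_fin _) hinj hsX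
  obtain ⟨δ, hδ⟩ : ∃ δ : ℝ, δ = 1 / L ^ (B + r + 8) := ⟨_, rfl⟩
  have hδ0 : 0 ≤ δ := by rw [hδ]; positivity
  have hL8 : 8 ≤ L := by linarith
  have hδ4 : δ ≤ 1 / 4 := by
    rw [hδ]
    apply one_div_le_one_div_of_le (by norm_num)
    calc (4 : ℝ) ≤ L ^ 1 := by rw [pow_one]; linarith
      _ ≤ L ^ (B + r + 8) := pow_le_pow_right₀ hL1 (by omega)
  have eδ : ∀ S : ℝ, S / L ^ (B + r + 8) = S * δ := by
    intro S
    rw [hδ]
    ring
  have b1 := h2' (Fin (r + 1)) _ (Fintype.card_fin _) hinj hsX z' hz'ge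
  have b2 := h2 (Fin r) t (Fintype.card_fin r) ht htX z' hz'ge
  have b3 := h2 (Fin r) t (Fintype.card_fin r) ht htX z hzge
  rw [eδ] at b1 b2 b3
  have hM := M_sub hzz t hinj hrz hδ0 hδ4 b1 b2 b3
  rw [← M_eq hzz t] at hM
  obtain ⟨Mv, hMv⟩ : ∃ Mv, Mv = (DZ z')⁻¹ * (DZ z)⁻¹ ^ r *
      ∏ p ∈ Nat.primesLE z, (1 - ((FF t z' p).card : ℝ) / p) := ⟨_, rfl⟩
  rw [← hMv] at hM
  have hDz : (DZ z)⁻¹ ≤ L := by
    rw [hz]
    exact hD
  have hD0 : 0 < (DZ z)⁻¹ := inv_pos.2 (DZ_pos z)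
  have hDz' : (DZ z')⁻¹ ≤ L := by
    refine le_trans ?_ hDz
    apply inv_anti₀ (DZ_pos z)
    unfold DZ
    rw [← Finset.prod_filter_mul_prod_filter_not (Nat.primesLE z) (fun p => p ≤ z'),
      primesLE_filter hzz]
    have g1 : 0 ≤ ∏ p ∈ Nat.primesLE z', (1 - 1 / (p : ℝ)) := (DZ_pos z').le
    have g2 : ∏ p ∈ (Nat.primesLE z).filter (fun p => ¬ p ≤ z'), (1 - 1 / (p : ℝ)) ≤ 1 := by
      apply Finset.prod_le_one
      · intro p hp
        exact (one_sub_inv_pos (Nat.mem_primesLE.1 (Finset.mem_filter.1 hp).1).2).le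
      · intro p _
        have : 0 ≤ 1 / (p : ℝ) := by positivity
        linarith
    calc _ ≤ (∏ p ∈ Nat.primesLE z', (1 - 1 / (p : ℝ))) * 1 := mul_le_mul_of_nonneg_left g2 g1
      _ = _ := mul_one _
  have hD0' : 0 < (DZ z')⁻¹ := inv_pos.2 (DZ_pos z')
  obtain ⟨W, hW⟩ : ∃ W, W = (DZ z')⁻¹ * (DZ z)⁻¹ ^ r := ⟨_, rfl⟩
  have hW0 : 0 ≤ W := by rw [hW]; positivity
  have hWL : W ≤ L ^ (r + 1) := by
    rw [hW, pow_succ, mul_comm]
    exact mul_le_mul (pow_le_pow_left₀ hD0.le hDz r) hDz' hD0'.le (by positivity)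
  have hq : 0 ≤ (x : ℝ) / L ^ (B + 5) := by positivity
  have hXe : (X : ℝ) ^ (ε / 2) * L ^ (B + r + 6) ≤ x := by
    calc (X : ℝ) ^ (ε / 2) * L ^ (B + r + 6) ≤ (X : ℝ) ^ (ε / 2) * (X : ℝ) ^ (ε / 2) := by gcongr
      _ = (X : ℝ) ^ ε := by rw [← Real.rpow_add hX0, add_halves]
      _ ≤ x := hx
  have hLr : L ^ (r + 2) ≤ x / L ^ (B + 5) := by
    rw [le_div_iff₀ (by positivity), ← pow_add]
    exact h5.trans hx
  have key : ∀ y' : ℕ, y' ≤ x → |∑ n ∈ Icc 1 y', pM z' z t n -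
      y' * SI (Fin.cons 0 t : Fin (r + 1) → ℕ)| ≤ 3 * (x / L ^ (B + 5)) := by
    intro y' hy'
    have hy0 : (0 : ℝ) ≤ y' := Nat.cast_nonneg y'
    have hyx : (y' : ℝ) ≤ x := by exact_mod_cast hy'
    have e1 : ∑ n ∈ Icc 1 y', pM z' z t n = W *
        (((Icc 1 y').filter (fun n => ∀ p ∈ Nat.primesLE z, n % p ∉ FF t z' p)).card : ℝ) := by
      rw [Finset.card_filter]
      push_cast
      rw [Finset.mul_sum]
      exact Finset.sum_congr rfl fun n _ => by rw [pM_eq hzz, hW]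
    have c1 := h1 y' (FF t z') (fun p hp => by
      have := card_FF t z' (Nat.mem_primesLE.1 hp).2.pos
      exact this)
    rw [← hz] at c1
    obtain ⟨N, hN⟩ : ∃ N : ℝ, N =
      (((Icc 1 y').filter (fun n => ∀ p ∈ Nat.primesLE z, n % p ∉ FF t z' p)).card : ℝ) := ⟨_, rfl⟩
    obtain ⟨G, hG⟩ : ∃ G : ℝ, G =
      ∏ p ∈ Nat.primesLE z, (1 - ((FF t z' p).card : ℝ) / p) := ⟨_, rfl⟩
    rw [← hN, ← hG] at c1
    rw [e1, ← hN]
    rw [← hG, ← hW] at hMv
    have e2 : W * N - y' * SI (Fin.cons 0 t : Fin (r + 1) → ℕ) =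
        W * (N - y' * G) + y' * (Mv - SI (Fin.cons 0 t : Fin (r + 1) → ℕ)) := by
      rw [hMv]
      ring
    rw [e2]
    refine (abs_add_le _ _).trans ?_
    rw [abs_mul, abs_mul, abs_of_nonneg hW0, abs_of_nonneg hy0]
    have d1 : W * |N - y' * G| ≤ 2 * (x / L ^ (B + 5)) := by
      calc W * |N - y' * G| ≤ L ^ (r + 1) * (y' / L ^ (B + r + 6) + (X : ℝ) ^ (ε / 2)) :=
            mul_le_mul hWL c1 (abs_nonneg _) (by positivity)
        _ = y' / L ^ (B + 5) + (X : ℝ) ^ (ε / 2) * L ^ (B + r + 6) / L ^ (B + 5) := by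
            exact alg1 hL0 r B y' _
        _ ≤ x / L ^ (B + 5) + x / L ^ (B + 5) := by gcongr
        _ = 2 * (x / L ^ (B + 5)) := by ring
    have d2 : (y' : ℝ) * |Mv - SI (Fin.cons 0 t : Fin (r + 1) → ℕ)| ≤ x / L ^ (B + 5) := by
      calc (y' : ℝ) * |Mv - SI (Fin.cons 0 t : Fin (r + 1) → ℕ)| ≤
            x * (SI (Fin.cons 0 t : Fin (r + 1) → ℕ) * (6 * δ)) := by gcongr
        _ ≤ x * (L ^ (r + 2) * (6 * δ)) := by gcongr
        _ = x / L ^ (B + 5) * (6 / L) := by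
            rw [hδ]
            exact alg2 hL0 r B x
        _ ≤ x / L ^ (B + 5) * 1 := by
            refine mul_le_mul_of_nonneg_left ?_ hq
            rw [div_le_one hL0]
            linarith
        _ = x / L ^ (B + 5) := mul_one _
    linarith
  have hab := abel_log_real univ (Fin.cons 0 t : Fin (r + 1) → ℕ) (fun n => pM z' z t n)
    (SI (Fin.cons 0 t : Fin (r + 1) → ℕ)) (3 * (x / L ^ (B + 5))) x key y hy
  have e1 : ∑ n ∈ Icc 1 y, G1 (zA A' x) n * ∏ i, G1 (zA A X) (n + t i) =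
      ∑ n ∈ Icc 1 y, pM z' z t n * hl univ (Fin.cons 0 t : Fin (r + 1) → ℕ) n := by
    rw [← hz', ← hz]
    exact Finset.sum_congr rfl fun n _ => (pM_hl z' z t n).symm
  rw [e1]
  refine hab.trans ?_
  rw [Finset.card_univ, Fintype.card_fin, abs_of_nonneg hSI]
  calc (2 : ℝ) ^ (r + 1 + 2) * (3 * (x / L ^ (B + 5)) + SI (Fin.cons 0 t : Fin (r + 1) → ℕ))
      ≤ 2 ^ (r + 1 + 2) * (3 * (x / L ^ (B + 5)) + x / L ^ (B + 5)) := by
        gcongr
        exact hSIu.trans hLr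
    _ = 2 ^ (r + 5) * (x / L ^ (B + 5)) := by ring
    _ ≤ L ^ 5 * (x / L ^ (B + 5)) := by
        refine mul_le_mul_of_nonneg_right ?_ hq
        calc (2 : ℝ) ^ (r + 5) ≤ 2 ^ (r + 6) := pow_le_pow_right₀ (by norm_num) (by omega)
          _ ≤ L ^ 1 := by rw [pow_one]; exact h6
          _ ≤ L ^ 5 := pow_le_pow_right₀ hL1 (by norm_num)
    _ = x / L ^ B := by
        rw [pow_add]
        field_simp

end Pool.Agent.SHZ
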