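import Pool.Agent.Lib.SHZ.Defs
import Pool.Agent.Lib.SHT.Net

/-!
# Module Sec0: second moment over the shifts, and all `y ≤ x`

`L = log X`, `g = dg (zA A' x)`, `G = G1 (zA A X)`; `|g n| ≤ L^2` for `n ≤ x` (`SHT.abs_dg_le`, `DZ_inv_le A'` at `x`, `x ≥ L^C` is large, `log x ≤ L`), `0 ≤ G m ≤ L` for `m ≤ 2 X` (`G1_le`).
For `y ≤ x`: `∑_a |∑_{n ≤ y} g n ∏_i G (n + a i)|^2 = ∑_{n, n' ≤ y} g n g n' ∏_i T(n, n')`, `T(n, n') = ∑_{u ∈ Icc 1 X} G (n + u) G (n' + u)` (as in the proof of `SHT.second`). For `n' = n + d`, `d ≥ 0`: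
`|T(n, n + d) - T(0, d)| ≤ 2 x L^2` and `|T| ≤ X L^2`, so `|∏_i T(n, n+d) - T(0,d)^r| ≤ r (X L^2)^(r-1) 2 x L^2`. Hence the second moment is at most
`(X L^2)^r (x L^4 + 2 ∑_{d ∈ Icc 1 x} |co g y d|) + 2 r X^(r-1) L^(2r) x · x^2 L^4 ≤ X^r x^2 / L^(B2)`, if `B`, `C` are large: `B = B2 + 2 r + 3`, `C = B2 + 2 r + 7`, `L` large.
Then `B2 = 4 A0 + C1 + 7` with `|g n ∏_i G (n + a i)| ≤ L^C1`, `C1 = r + 2`, and the net argument of `Lib/SHT/Net.lean` (`SHT.NetAux.net_gen`, private there: copy it) gives the exceptional set for all `y ≤ x`.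
-/

set_option autoImplicit false

open Finset Filter

namespace Pool.Agent.SHZ

open Pool.Agent.HLB Pool.Agent.HL Pool.Agent.HLT Pool.Agent.HLU Pool.Agent.VN

namespace Sec0Aux

private lemma net_gen {τ : Type} (A C : ℕ) (L : ℝ) (hL2 : 2 ≤ L) (x : ℕ) (hpow : L ^ (A + C + 1) ≤ x)
    (P : Finset τ) (D : τ → ℕ → ℂ) (Q : ℝ) (hQ : 0 ≤ Q) (hD : ∀ t ∈ P, ∀ n ∈ Icc 1 x, ‖D t n‖ ≤ L ^ C)
    (hms : ∀ y : ℕ, y ≤ x → ∑ t ∈ P, ‖∑ n ∈ Icc 1 y, D t n‖ ^ 2 ≤
      Q * ((x : ℝ) ^ 2 / L ^ (4 * A + C + 6))) :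
    ∃ E ⊆ P, (E.card : ℝ) ≤ Q / L ^ A ∧ ∀ t ∈ P, t ∉ E → ∀ y : ℕ, y ≤ x →
      ‖∑ n ∈ Icc 1 y, D t n‖ ≤ x / L ^ A := by
  classical
  have hL0 : 0 < L := by linarith
  have hL1 : 1 ≤ L := by linarith
  have hLp : ∀ m : ℕ, 0 < L ^ m := fun m => pow_pos hL0 m
  have hx0 : (0 : ℝ) < x := lt_of_lt_of_le (hLp _) hpow
  set z : ℝ := x / L ^ (A + C + 1) with hz
  have hz1 : 1 ≤ z := by rw [hz, le_div_iff₀ (hLp _), one_mul]; exact hpow
  set h : ℕ := ⌊z⌋₊ with hh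
  have hh1 : 1 ≤ h := by rw [hh]; exact Nat.le_floor (by simpa using hz1)
  have hhz : (h : ℝ) ≤ z := Nat.floor_le (by linarith)
  have hzh : z ≤ 2 * (h : ℝ) := by
    have h1 : z < (h : ℝ) + 1 := Nat.lt_floor_add_one z
    have h2 : (1 : ℝ) ≤ h := by exact_mod_cast hh1
    linarith
  have hh0 : (0 : ℝ) < h := by exact_mod_cast hh1
  set K : ℕ := x / h with hK
  have hKh : K * h ≤ x := Nat.div_mul_le_self x h
  have hKr : ((K + 1 : ℕ) : ℝ) ≤ 3 * L ^ (A + C + 1) := by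
    have h1 : (K : ℝ) * h ≤ x := by exact_mod_cast hKh
    have h2 : (x : ℝ) = z * L ^ (A + C + 1) := by
      rw [hz, div_mul_cancel₀ _ (hLp _).ne']
    have h3 : (K : ℝ) * h ≤ (2 * L ^ (A + C + 1)) * h := by
      have := mul_le_mul_of_nonneg_right hzh (hLp (A + C + 1)).le
      linarith
    have h4 : (K : ℝ) ≤ 2 * L ^ (A + C + 1) := le_of_mul_le_mul_right h3 hh0
    have h5 : (1 : ℝ) ≤ L ^ (A + C + 1) := one_le_pow₀ hL1
    push_cast
    linarith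
  set W : ℝ := x / (2 * L ^ A) with hW
  have hW0 : 0 < W := by rw [hW]; have := hLp A; positivity
  let B : ℕ → Finset τ := fun k => P.filter (fun t => W < ‖∑ n ∈ Icc 1 (k * h), D t n‖)
  have hB : ∀ k ∈ range (K + 1), ((B k).card : ℝ) ≤ 4 * L ^ (2 * A) * Q / L ^ (4 * A + C + 6) := by
    intro k hk
    have hk1 : k ≤ K := Nat.lt_succ_iff.mp (mem_range.mp hk)
    have hkx : k * h ≤ x := (Nat.mul_le_mul_right h hk1).trans hKh
    have h1 : ((B k).card : ℝ) * W ^ 2 ≤ Q * (x ^ 2 / L ^ (4 * A + C + 6)) := by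
      calc ((B k).card : ℝ) * W ^ 2 = ∑ t ∈ B k, W ^ 2 := by rw [sum_const, nsmul_eq_mul]
        _ ≤ ∑ t ∈ B k, ‖∑ n ∈ Icc 1 (k * h), D t n‖ ^ 2 := by
            refine sum_le_sum fun t ht => ?_
            exact pow_le_pow_left₀ hW0.le (mem_filter.mp ht).2.le 2
        _ ≤ ∑ t ∈ P, ‖∑ n ∈ Icc 1 (k * h), D t n‖ ^ 2 :=
            sum_le_sum_of_subset_of_nonneg (filter_subset _ _) fun _ _ _ => by positivity
        _ ≤ _ := hms _ hkx
    have h2 : Q * (x ^ 2 / L ^ (4 * A + C + 6)) =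
        (4 * L ^ (2 * A) * Q / L ^ (4 * A + C + 6)) * W ^ 2 := by
      rw [hW]
      have := (hLp A).ne'
      have := (hLp (4 * A + C + 6)).ne'
      rw [show 2 * A = A + A by ring, pow_add L A A]
      field_simp
      ring
    rw [h2] at h1
    exact le_of_mul_le_mul_right h1 (by positivity)
  refine ⟨(range (K + 1)).biUnion B, ?_, ?_, ?_⟩
  · intro t ht
    obtain ⟨k, -, hk⟩ := mem_biUnion.mp ht
    exact (mem_filter.mp hk).1
  · have h1 : ((((range (K + 1)).biUnion B).card : ℕ) : ℝ) ≤ ∑ k ∈ range (K + 1), ((B k).card : ℝ) := by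
      exact_mod_cast card_biUnion_le
    have h2 : ∑ k ∈ range (K + 1), ((B k).card : ℝ) ≤
        ((K + 1 : ℕ) : ℝ) * (4 * L ^ (2 * A) * Q / L ^ (4 * A + C + 6)) := by
      refine (sum_le_sum hB).trans ?_
      rw [sum_const, card_range, nsmul_eq_mul]
    have h3 : ((K + 1 : ℕ) : ℝ) * (4 * L ^ (2 * A) * Q / L ^ (4 * A + C + 6)) ≤
        (3 * L ^ (A + C + 1)) * (4 * L ^ (2 * A) * Q / L ^ (4 * A + C + 6)) := by
      refine mul_le_mul_of_nonneg_right hKr ?_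
      have := hLp (2 * A)
      have := hLp (4 * A + C + 6)
      positivity
    refine h1.trans (h2.trans (h3.trans ?_))
    have h4 : (3 * L ^ (A + C + 1)) * (4 * L ^ (2 * A) * Q / L ^ (4 * A + C + 6)) =
        (12 * Q / L ^ 5) / L ^ A := by
      have e1 : L ^ (4 * A + C + 6) = L ^ (A + C + 1) * L ^ (2 * A) * (L ^ 5 * L ^ A) := by
        rw [← pow_add, ← pow_add, ← pow_add]
        congr 1
        ring
      rw [e1]
      have := (hLp (A + C + 1)).ne'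
      have := (hLp (2 * A)).ne'
      have := (hLp A).ne'
      field_simp
      ring
    rw [h4]
    refine div_le_div_of_nonneg_right ?_ (hLp A).le
    rw [div_le_iff₀ (hLp 5)]
    have h5 : (12 : ℝ) ≤ L ^ 5 := by
      have : (2 : ℝ) ^ 5 ≤ L ^ 5 := pow_le_pow_left₀ (by norm_num) hL2 5
      linarith
    nlinarith
  · intro t ht htE y hy
    set k : ℕ := y / h with hk
    have hkK : k ≤ K := Nat.div_le_div_right hy
    have hkh : k * h ≤ y := Nat.div_mul_le_self y h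
    have hlt : y < k * h + h := by
      have := Nat.lt_div_mul_add (a := y) (b := h) (by omega)
      simpa [hk] using this
    have hg : ‖∑ n ∈ Icc 1 (k * h), D t n‖ ≤ W := by
      by_contra hcon
      push Not at hcon
      exact htE (mem_biUnion.mpr ⟨k, mem_range.mpr (by omega), mem_filter.mpr ⟨ht, hcon⟩⟩)
    have hsplit : ∑ n ∈ Icc 1 y, D t n = ∑ n ∈ Icc 1 (k * h), D t n + ∑ n ∈ Ioc (k * h) y, D t n := by
      rw [← sum_union]
      · congr 1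
        ext n
        simp only [mem_union, mem_Icc, mem_Ioc]
        constructor
        · rintro ⟨h1, h2⟩
          by_cases h3 : n ≤ k * h
          · exact Or.inl ⟨h1, h3⟩
          · exact Or.inr ⟨by omega, h2⟩
        · rintro (⟨h1, h2⟩ | ⟨h1, h2⟩)
          · exact ⟨h1, h2.trans hkh⟩
          · exact ⟨by omega, h2⟩
      · rw [disjoint_left]
        intro n h1 h2
        simp only [mem_Icc, mem_Ioc] at h1 h2
        omega
    have htail : ‖∑ n ∈ Ioc (k * h) y, D t n‖ ≤ h * L ^ C := by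
      refine (norm_sum_le _ _).trans ?_
      calc ∑ n ∈ Ioc (k * h) y, ‖D t n‖ ≤ ∑ _n ∈ Ioc (k * h) y, L ^ C := by
            refine sum_le_sum fun n hn => hD t ht n ?_
            rw [mem_Ioc] at hn
            rw [mem_Icc]
            exact ⟨by omega, hn.2.trans hy⟩
        _ = ((Ioc (k * h) y).card : ℝ) * L ^ C := by rw [sum_const, nsmul_eq_mul]
        _ ≤ h * L ^ C := by
            refine mul_le_mul_of_nonneg_right ?_ (hLp C).le
            rw [Nat.card_Ioc]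
            exact_mod_cast (by omega : y - k * h ≤ h)
    have htail2 : (h : ℝ) * L ^ C ≤ W := by
      calc (h : ℝ) * L ^ C ≤ z * L ^ C := mul_le_mul_of_nonneg_right hhz (hLp C).le
        _ = x / (L * L ^ A) := by
            rw [hz, show A + C + 1 = 1 + A + C by ring, pow_add, pow_add, pow_one]
            have := (hLp A).ne'
            have := (hLp C).ne'
            field_simp
        _ ≤ W := by
            rw [hW]
            refine div_le_div_of_nonneg_left hx0.le (by have := hLp A; positivity) ?_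
            exact mul_le_mul_of_nonneg_right hL2 (hLp A).le
    calc ‖∑ n ∈ Icc 1 y, D t n‖ ≤ ‖∑ n ∈ Icc 1 (k * h), D t n‖ + ‖∑ n ∈ Ioc (k * h) y, D t n‖ := by
          rw [hsplit]; exact norm_add_le _ _
      _ ≤ W + W := add_le_add hg (htail.trans htail2)
      _ = x / L ^ A := by
          rw [hW]
          have := (hLp A).ne'
          field_simp
          norm_num

private lemma expand_real {r : ℕ} (X y : ℕ) (g G : ℕ → ℝ) :
    ∑ a ∈ Fintype.piFinset (fun _ : Fin r => Icc 1 X), (∑ n ∈ Icc 1 y, g n * ∏ i, G (n + a i)) ^ 2 =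
      ∑ n ∈ Icc 1 y, ∑ n' ∈ Icc 1 y, g n * g n' * (∑ u ∈ Icc 1 X, G (n + u) * G (n' + u)) ^ r := by
  have h1 : ∀ a ∈ Fintype.piFinset (fun _ : Fin r => Icc 1 X),
      (∑ n ∈ Icc 1 y, g n * ∏ i, G (n + a i)) ^ 2 =
      ∑ n ∈ Icc 1 y, ∑ n' ∈ Icc 1 y, (g n * g n') * ∏ i, (G (n + a i) * G (n' + a i)) := by
    intro a _
    rw [sq, sum_mul_sum]
    refine sum_congr rfl fun n _ => sum_congr rfl fun n' _ => ?_
    rw [prod_mul_distrib]
    ring
  rw [sum_congr rfl h1, sum_comm]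
  refine sum_congr rfl fun n _ => ?_
  rw [sum_comm]
  refine sum_congr rfl fun n' _ => ?_
  rw [← mul_sum]
  congr 1
  have h2 := Finset.prod_univ_sum (fun _ : Fin r => Icc 1 X) (fun _ u => G (n + u) * G (n' + u))
  rw [prod_const, card_univ, Fintype.card_fin] at h2
  exact h2.symm

private lemma refl_sum (y : ℕ) (f : ℕ → ℝ) : ∑ d ∈ Icc 1 y, f d = ∑ n ∈ Icc 1 y, f (y + 1 - n) := by
  refine Finset.sum_nbij' (fun d => y + 1 - d) (fun d => y + 1 - d) ?_ ?_ ?_ ?_ ?_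
  · intro d hd
    rw [mem_Icc] at hd ⊢
    omega
  · intro d hd
    rw [mem_Icc] at hd ⊢
    omega
  · intro d hd
    rw [mem_Icc] at hd
    omega
  · intro d hd
    rw [mem_Icc] at hd
    omega
  · intro d hd
    rw [mem_Icc] at hd
    congr 1
    omega

private lemma dist_sum (g F : ℕ → ℝ) (y : ℕ) :
    ∑ n ∈ Icc 1 y, ∑ n' ∈ Icc 1 y, g n * g n' * F ((n - n') + (n' - n)) =
      F 0 * ∑ n ∈ Icc 1 y, g n ^ 2 + 2 * ∑ d ∈ Icc 1 y, F d * co g y d := by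
  induction y with
  | zero => simp
  | succ y ih =>
    have e1 : ∀ n ∈ Icc 1 y, ∑ n' ∈ Icc 1 (y + 1), g n * g n' * F ((n - n') + (n' - n)) =
        ∑ n' ∈ Icc 1 y, g n * g n' * F ((n - n') + (n' - n)) + g n * g (y + 1) * F (y + 1 - n) := by
      intro n hn
      rw [mem_Icc] at hn
      rw [sum_Icc_succ_top (by omega)]
      congr 3
      omega
    have e2 : ∑ n' ∈ Icc 1 (y + 1), g (y + 1) * g n' * F ((y + 1 - n') + (n' - (y + 1))) =
        ∑ n ∈ Icc 1 y, g n * g (y + 1) * F (y + 1 - n) + g (y + 1) ^ 2 * F 0 := by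
      rw [sum_Icc_succ_top (by omega)]
      congr 1
      · refine sum_congr rfl fun n hn => ?_
        rw [mem_Icc] at hn
        have : (y + 1 - n) + (n - (y + 1)) = y + 1 - n := by omega
        rw [this]
        ring
      · have : (y + 1 - (y + 1)) + (y + 1 - (y + 1)) = 0 := by omega
        rw [this]
        ring
    have e3 : ∀ d ∈ Icc 1 y, F d * co g (y + 1) d = F d * co g y d + F d * (g (y + 1 - d) * g (y + 1)) := by
      intro d hd
      rw [mem_Icc] at hd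
      rw [← mul_add]
      congr 1
      unfold co
      have h : y + 1 - d = (y - d) + 1 := by omega
      rw [h, sum_Icc_succ_top (by omega)]
      congr 3
      omega
    have e4 : ∑ d ∈ Icc 1 (y + 1), F d * co g (y + 1) d =
        ∑ d ∈ Icc 1 y, F d * co g y d + ∑ n ∈ Icc 1 y, g n * g (y + 1) * F (y + 1 - n) := by
      rw [sum_Icc_succ_top (by omega), sum_congr rfl e3, sum_add_distrib]
      have h0 : co g (y + 1) (y + 1) = 0 := by
        unfold co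
        simp
      rw [h0, mul_zero, add_zero, refl_sum y (fun d => F d * (g (y + 1 - d) * g (y + 1)))]
      congr 1
      refine sum_congr rfl fun n hn => ?_
      rw [mem_Icc] at hn
      have : y + 1 - (y + 1 - n) = n := by omega
      rw [this]
      ring
    rw [sum_Icc_succ_top (by omega), sum_congr rfl e1, sum_add_distrib, ih, e2, e4,
      sum_Icc_succ_top (by omega)]
    ring

private lemma shiftB (G : ℕ → ℝ) (X m d : ℕ) (P : ℝ) (hP : ∀ v, |G v| ≤ P) :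
    |∑ u ∈ Icc 1 X, G (m + u) * G (m + d + u) - SHT.cor G X d| ≤ 2 * m * P ^ 2 := by
  have h0 : 0 ≤ P := (abs_nonneg _).trans (hP 0)
  have h1 := SHT.SecondAux.sum_split (fun v => G v * G (v + d)) m X
  have h2 := SHT.SecondAux.sum_split (fun v => G v * G (v + d)) X m
  rw [add_comm X m, h1] at h2
  have hb : ∀ v : ℕ, |G v * G (v + d)| ≤ P ^ 2 := by
    intro v
    rw [abs_mul, sq]
    exact mul_le_mul (hP v) (hP (v + d)) (abs_nonneg _) h0
  have h3 : |∑ v ∈ Icc 1 m, G v * G (v + d)| ≤ m * P ^ 2 := by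
    refine (abs_sum_le_sum_abs _ _).trans ?_
    refine (sum_le_sum (g := fun _ => P ^ 2) fun v _ => hb v).trans ?_
    rw [sum_const, Nat.card_Icc, nsmul_eq_mul]
    simp
  have h4 : |∑ u ∈ Icc 1 m, G (X + u) * G (X + u + d)| ≤ m * P ^ 2 := by
    refine (abs_sum_le_sum_abs _ _).trans ?_
    refine (sum_le_sum (g := fun _ => P ^ 2) fun v _ => hb (X + v)).trans ?_
    rw [sum_const, Nat.card_Icc, nsmul_eq_mul]
    simp
  have h5 : ∑ u ∈ Icc 1 X, G (m + u) * G (m + d + u) = ∑ u ∈ Icc 1 X, G (m + u) * G (m + u + d) :=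
    sum_congr rfl fun u _ => by rw [show m + d + u = m + u + d by omega]
  have h6 : ∑ u ∈ Icc 1 X, G (m + u) * G (m + u + d) =
      SHT.cor G X d + ∑ u ∈ Icc 1 m, G (X + u) * G (X + u + d) - ∑ v ∈ Icc 1 m, G v * G (v + d) := by
    unfold SHT.cor
    linarith
  rw [h5, h6]
  have h7 := abs_le.mp h3
  have h8 := abs_le.mp h4
  rw [abs_le]
  constructor <;> linarith

private lemma T_dist (G : ℕ → ℝ) (X x n n' : ℕ) (P : ℝ) (hP : ∀ v, |G v| ≤ P) (hn : n ≤ x) (hn' : n' ≤ x) :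
    |∑ u ∈ Icc 1 X, G (n + u) * G (n' + u) - SHT.cor G X ((n - n') + (n' - n))| ≤ 2 * x * P ^ 2 := by
  have hP2 : 0 ≤ P ^ 2 := sq_nonneg P
  rcases le_total n n' with h | h
  · obtain ⟨d, rfl⟩ := Nat.exists_eq_add_of_le h
    have h1 := shiftB G X n d P hP
    have h2 : (n - (n + d)) + (n + d - n) = d := by omega
    rw [h2]
    have h3 : (n : ℝ) ≤ x := by exact_mod_cast hn
    refine h1.trans ?_
    nlinarith
  · obtain ⟨d, rfl⟩ := Nat.exists_eq_add_of_le h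
    have h1 := shiftB G X n' d P hP
    have h2 : (n' + d - n') + (n' - (n' + d)) = d := by omega
    rw [h2]
    have h3 : (n' : ℝ) ≤ x := by exact_mod_cast hn'
    have h4 : ∑ u ∈ Icc 1 X, G (n' + d + u) * G (n' + u) = ∑ u ∈ Icc 1 X, G (n' + u) * G (n' + d + u) :=
      sum_congr rfl fun u _ => mul_comm _ _
    rw [h4]
    refine h1.trans ?_
    nlinarith

private lemma T_le (G : ℕ → ℝ) (X : ℕ) (P : ℝ) (hP : ∀ v, |G v| ≤ P) (s t : ℕ → ℕ) :
    |∑ u ∈ Icc 1 X, G (s u) * G (t u)| ≤ X * P ^ 2 := by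
  have h0 : 0 ≤ P := (abs_nonneg _).trans (hP 0)
  refine (abs_sum_le_sum_abs _ _).trans ?_
  refine (sum_le_sum (g := fun _ => P ^ 2) fun v _ => ?_).trans ?_
  · rw [abs_mul, sq]
    exact mul_le_mul (hP _) (hP _) (abs_nonneg _) h0
  · rw [sum_const, Nat.card_Icc, nsmul_eq_mul]
    simp

private lemma pow_diff (r : ℕ) (a b M : ℝ) (hM : 0 < M) (ha : |a| ≤ M) (hb : |b| ≤ M) :
    |a ^ r - b ^ r| ≤ r * M ^ r * |a - b| / M := by
  rw [le_div_iff₀ hM]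
  rcases Nat.eq_zero_or_pos r with rfl | hr
  · simp
  · have h1 := abs_pow_sub_pow_le a b r
    have h2 : max |a| |b| ^ (r - 1) ≤ M ^ (r - 1) :=
      pow_le_pow_left₀ (le_max_of_le_left (abs_nonneg _)) (max_le ha hb) _
    have h3 : |a ^ r - b ^ r| ≤ |a - b| * r * M ^ (r - 1) :=
      h1.trans (mul_le_mul_of_nonneg_left h2 (by positivity))
    have h4 : M ^ r = M ^ (r - 1) * M := by
      rw [← pow_succ]
      congr 1
      omega
    calc |a ^ r - b ^ r| * M ≤ (|a - b| * r * M ^ (r - 1)) * M := mul_le_mul_of_nonneg_right h3 hM.le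
      _ = r * M ^ r * |a - b| := by rw [h4]; ring

private lemma second0 (r X x y : ℕ) (hy : y ≤ x) (g G : ℕ → ℝ) (P R : ℝ) (hP : 0 < P) (hX : 0 < X)
    (hg : ∀ n, |g n| ≤ P) (hG : ∀ n, |G n| ≤ P) (hR : ∑ d ∈ Icc 1 x, |co g y d| ≤ R) :
    ∑ a ∈ Fintype.piFinset (fun _ : Fin r => Icc 1 X), (∑ n ∈ Icc 1 y, g n * ∏ i, G (n + a i)) ^ 2 ≤
      (X * P ^ 2) ^ r * (x * P ^ 2 + 2 * R + 2 * r * x ^ 3 * P ^ 2 / X) := by
  obtain ⟨M, hM⟩ : ∃ M : ℝ, M = X * P ^ 2 := ⟨_, rfl⟩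
  have hX0 : (0 : ℝ) < X := by exact_mod_cast hX
  have hP2 : 0 < P ^ 2 := by positivity
  have hM0 : 0 < M := by rw [hM]; positivity
  have hyx : (y : ℝ) ≤ x := by exact_mod_cast hy
  have hy0 : (0 : ℝ) ≤ y := Nat.cast_nonneg y
  have hx0 : (0 : ℝ) ≤ x := Nat.cast_nonneg x
  have hMr : 0 < M ^ r := pow_pos hM0 r
  rw [expand_real, ← hM]
  have hsplit : ∑ n ∈ Icc 1 y, ∑ n' ∈ Icc 1 y, g n * g n' * (∑ u ∈ Icc 1 X, G (n + u) * G (n' + u)) ^ r =
      ∑ n ∈ Icc 1 y, ∑ n' ∈ Icc 1 y, g n * g n' * (SHT.cor G X ((n - n') + (n' - n))) ^ r +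
      ∑ n ∈ Icc 1 y, ∑ n' ∈ Icc 1 y, g n * g n' * ((∑ u ∈ Icc 1 X, G (n + u) * G (n' + u)) ^ r -
        (SHT.cor G X ((n - n') + (n' - n))) ^ r) := by
    rw [← sum_add_distrib]
    refine sum_congr rfl fun n _ => ?_
    rw [← sum_add_distrib]
    refine sum_congr rfl fun n' _ => ?_
    ring
  rw [hsplit, dist_sum g (fun d => (SHT.cor G X d) ^ r) y]
  have hcor : ∀ d, |SHT.cor G X d| ≤ M := by
    intro d
    rw [hM]
    exact T_le G X P hG (fun u => u) (fun u => u + d)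
  have hF : ∀ d, |(SHT.cor G X d) ^ r| ≤ M ^ r := by
    intro d
    rw [abs_pow]
    exact pow_le_pow_left₀ (abs_nonneg _) (hcor d) r
  have ha : (SHT.cor G X 0) ^ r * ∑ n ∈ Icc 1 y, g n ^ 2 ≤ M ^ r * (x * P ^ 2) := by
    have h1 : ∑ n ∈ Icc 1 y, g n ^ 2 ≤ x * P ^ 2 := by
      have h2 : ∑ n ∈ Icc 1 y, g n ^ 2 ≤ ∑ n ∈ Icc 1 y, P ^ 2 := by
        refine sum_le_sum fun n _ => ?_
        rw [← sq_abs]
        exact pow_le_pow_left₀ (abs_nonneg _) (hg n) 2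
      rw [sum_const, Nat.card_Icc, nsmul_eq_mul, Nat.add_sub_cancel] at h2
      exact h2.trans (mul_le_mul_of_nonneg_right hyx hP2.le)
    have h3 : 0 ≤ ∑ n ∈ Icc 1 y, g n ^ 2 := sum_nonneg fun _ _ => sq_nonneg _
    calc (SHT.cor G X 0) ^ r * ∑ n ∈ Icc 1 y, g n ^ 2 ≤ M ^ r * ∑ n ∈ Icc 1 y, g n ^ 2 :=
          mul_le_mul_of_nonneg_right ((le_abs_self _).trans (hF 0)) h3
      _ ≤ M ^ r * (x * P ^ 2) := mul_le_mul_of_nonneg_left h1 hMr.le
  have hb : ∑ d ∈ Icc 1 y, (SHT.cor G X d) ^ r * co g y d ≤ M ^ r * R := by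
    calc ∑ d ∈ Icc 1 y, (SHT.cor G X d) ^ r * co g y d ≤ ∑ d ∈ Icc 1 y, M ^ r * |co g y d| := by
          refine sum_le_sum fun d _ => ?_
          refine (le_abs_self _).trans ?_
          rw [abs_mul]
          exact mul_le_mul_of_nonneg_right (hF d) (abs_nonneg _)
      _ = M ^ r * ∑ d ∈ Icc 1 y, |co g y d| := by rw [mul_sum]
      _ ≤ M ^ r * ∑ d ∈ Icc 1 x, |co g y d| := by
          refine mul_le_mul_of_nonneg_left ?_ hMr.le
          exact sum_le_sum_of_subset_of_nonneg (Icc_subset_Icc le_rfl hy) fun _ _ _ => abs_nonneg _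
      _ ≤ M ^ r * R := mul_le_mul_of_nonneg_left hR hMr.le
  have hc : ∑ n ∈ Icc 1 y, ∑ n' ∈ Icc 1 y, g n * g n' * ((∑ u ∈ Icc 1 X, G (n + u) * G (n' + u)) ^ r -
        (SHT.cor G X ((n - n') + (n' - n))) ^ r) ≤ M ^ r * (2 * r * x ^ 3 * P ^ 2 / X) := by
    have h1 : ∀ n ∈ Icc 1 y, ∀ n' ∈ Icc 1 y, g n * g n' * ((∑ u ∈ Icc 1 X, G (n + u) * G (n' + u)) ^ r -
        (SHT.cor G X ((n - n') + (n' - n))) ^ r) ≤ P ^ 2 * (r * M ^ r * (2 * x * P ^ 2) / M) := by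
      intro n hn n' hn'
      rw [mem_Icc] at hn hn'
      refine (le_abs_self _).trans ?_
      rw [abs_mul, abs_mul]
      have h2 : |g n| * |g n'| ≤ P ^ 2 := by
        rw [sq]
        exact mul_le_mul (hg n) (hg n') (abs_nonneg _) hP.le
      have h3 := pow_diff r (∑ u ∈ Icc 1 X, G (n + u) * G (n' + u)) (SHT.cor G X ((n - n') + (n' - n))) M hM0
        (by rw [hM]; exact T_le G X P hG (fun u => n + u) (fun u => n' + u)) (hcor _)
      have h4 := T_dist G X x n n' P hG (hn.2.trans hy) (hn'.2.trans hy)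
      have h5 : r * M ^ r * |∑ u ∈ Icc 1 X, G (n + u) * G (n' + u) - SHT.cor G X ((n - n') + (n' - n))| / M ≤
          r * M ^ r * (2 * x * P ^ 2) / M := by
        refine div_le_div_of_nonneg_right ?_ hM0.le
        exact mul_le_mul_of_nonneg_left h4 (mul_nonneg (Nat.cast_nonneg r) hMr.le)
      exact mul_le_mul h2 (h3.trans h5) (abs_nonneg _) hP2.le
    have h6 : ∑ n ∈ Icc 1 y, ∑ n' ∈ Icc 1 y, g n * g n' * ((∑ u ∈ Icc 1 X, G (n + u) * G (n' + u)) ^ r -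
        (SHT.cor G X ((n - n') + (n' - n))) ^ r) ≤
        ∑ n ∈ Icc 1 y, ∑ n' ∈ Icc 1 y, P ^ 2 * (r * M ^ r * (2 * x * P ^ 2) / M) :=
      sum_le_sum fun n hn => sum_le_sum fun n' hn' => h1 n hn n' hn'
    refine h6.trans ?_
    rw [sum_const, sum_const, Nat.card_Icc, nsmul_eq_mul, nsmul_eq_mul, Nat.add_sub_cancel]
    have h7 : 0 ≤ P ^ 2 * (r * M ^ r * (2 * x * P ^ 2) / M) := by positivity
    have h8 : (y : ℝ) * (y * (P ^ 2 * (r * M ^ r * (2 * x * P ^ 2) / M))) ≤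
        x * (x * (P ^ 2 * (r * M ^ r * (2 * x * P ^ 2) / M))) :=
      mul_le_mul hyx (mul_le_mul_of_nonneg_right hyx h7) (mul_nonneg hy0 h7) hx0
    refine h8.trans (le_of_eq ?_)
    have h9 : (r * M ^ r * (2 * x * P ^ 2) / M : ℝ) = r * M ^ r * (2 * x) / X := by
      rw [div_eq_div_iff hM0.ne' hX0.ne', hM]
      ring
    rw [h9]
    ring
  have : M ^ r * (x * P ^ 2 + 2 * R + 2 * r * x ^ 3 * P ^ 2 / X) =
      M ^ r * (x * P ^ 2) + 2 * (M ^ r * R) + M ^ r * (2 * r * x ^ 3 * P ^ 2 / X) := by ring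
  rw [this]
  linarith

private lemma ev_log' (c : ℝ) : ∀ᶠ X : ℕ in atTop, c ≤ Real.log X :=
  (Real.tendsto_log_atTop.comp tendsto_natCast_atTop_atTop).eventually_ge_atTop c

private lemma numer (r : ℕ) (B2 : ℕ) (L x X : ℝ) (hL6 : 6 ≤ L) (hLr : 6 * (r : ℝ) ≤ L) (hx : 0 < x) (hX : 0 < X)
    (E : ℕ) (hE : E = 4 * r + B2 + 5) (hx1 : L ^ E ≤ x) (hx2 : x ≤ X / L ^ E) :
    (X * (L ^ 2) ^ 2) ^ r * (x * (L ^ 2) ^ 2 + 2 * (x ^ 2 / L ^ E) + 2 * r * x ^ 3 * (L ^ 2) ^ 2 / X) ≤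
      X ^ r * (x ^ 2 / L ^ B2) := by
  have hL0 : 0 < L := by linarith
  have hL1 : 1 ≤ L := by linarith
  have hLp : ∀ m : ℕ, 0 < L ^ m := fun m => pow_pos hL0 m
  have hXr : 0 < X ^ r := pow_pos hX r
  have e1 : (X * (L ^ 2) ^ 2) ^ r = X ^ r * L ^ (4 * r) := by
    rw [mul_pow, ← pow_mul, ← pow_mul]
    congr 2
    ring
  have e2 : (L ^ 2) ^ 2 = L ^ 4 := by ring
  rw [e1, e2, mul_assoc]
  refine mul_le_mul_of_nonneg_left ?_ hXr.le
  rw [le_div_iff₀ (hLp B2)]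
  have eE : L ^ E = L ^ (4 * r) * L ^ B2 * L ^ 5 := by
    rw [hE, pow_add, pow_add]
  obtain ⟨U, hU⟩ : ∃ U : ℝ, U = L ^ (4 * r) * L ^ B2 := ⟨_, rfl⟩
  have hU0 : 0 < U := by rw [hU]; positivity
  rw [← hU] at eE
  have e5 : L ^ 5 = L ^ 4 * L := by ring
  have h4 : 1 ≤ L ^ 4 := one_le_pow₀ hL1
  have h4p := hLp 4
  -- first term
  have t1 : U * L ^ 4 * 3 * x ≤ x ^ 2 := by
    have h1 : U * L ^ 4 * 3 ≤ x := by
      refine le_trans ?_ hx1
      rw [eE, e5]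
      have : 0 < U * L ^ 4 := by positivity
      nlinarith
    nlinarith
  have t2 : 6 * U * (x ^ 2 / L ^ E) ≤ x ^ 2 := by
    rw [mul_div_assoc', div_le_iff₀ (hLp E), eE, e5]
    have h1 : 6 ≤ L ^ 4 * L := by nlinarith
    have h2 : 0 < U * x ^ 2 := by positivity
    nlinarith
  have t3 : 6 * r * U * x ^ 3 * L ^ 4 / X ≤ x ^ 2 := by
    rw [div_le_iff₀ hX]
    rw [le_div_iff₀ (hLp E), eE, e5] at hx2
    have h1 : 0 ≤ x ^ 2 * (U * x * L ^ 4) := by positivity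
    have h2 : 6 * r * (x ^ 2 * (U * x * L ^ 4)) ≤ L * (x ^ 2 * (U * x * L ^ 4)) :=
      mul_le_mul_of_nonneg_right hLr h1
    have h3 : x ^ 2 * (x * (U * (L ^ 4 * L))) ≤ x ^ 2 * X :=
      mul_le_mul_of_nonneg_left hx2 (by positivity)
    nlinarith
  have e6 : L ^ (4 * r) * (x * L ^ 4 + 2 * (x ^ 2 / L ^ E) + 2 * r * x ^ 3 * L ^ 4 / X) * L ^ B2 =
      (U * L ^ 4 * 3 * x) / 3 + (6 * U * (x ^ 2 / L ^ E)) / 3 + (6 * r * U * x ^ 3 * L ^ 4 / X) / 3 := by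
    rw [hU]
    ring
  rw [e6]
  linarith

end Sec0Aux

open Sec0Aux

theorem sec0 (r A0 : ℕ) : ∃ B C : ℕ, ∀ A A' : ℕ, ∀ᶠ X : ℕ in atTop, ∀ x : ℕ, Real.log X ^ C ≤ x → (x : ℝ) ≤ X / Real.log X ^ C →
    (∀ y : ℕ, y ≤ x → ∑ d ∈ Icc 1 x, |co (SHT.dg (zA A' x)) y d| ≤ (x : ℝ) ^ 2 / Real.log X ^ B) →
    ∃ E ⊆ Fintype.piFinset (fun _ : Fin r => Icc 1 X), (E.card : ℝ) ≤ (X : ℝ) ^ r / Real.log X ^ A0 ∧
      ∀ a ∈ Fintype.piFinset (fun _ : Fin r => Icc 1 X), a ∉ E → ∀ y : ℕ, y ≤ x →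
        |∑ n ∈ Icc 1 y, SHT.dg (zA A' x) n * ∏ i, G1 (zA A X) (n + a i)| ≤ x / Real.log X ^ A0 := by
  classical
  obtain ⟨C1, hC1⟩ : ∃ C1, C1 = 2 * r + 2 := ⟨_, rfl⟩
  obtain ⟨B2, hB2⟩ : ∃ B2, B2 = 4 * A0 + C1 + 6 := ⟨_, rfl⟩
  obtain ⟨E0, hE0⟩ : ∃ E0, E0 = 4 * r + B2 + 5 := ⟨_, rfl⟩
  refine ⟨E0, E0 + (A0 + C1 + 1), fun A A' => ?_⟩
  obtain ⟨x0, hx0⟩ := eventually_atTop.mp ((DZ_inv_le A').and (ev_log' 2))
  filter_upwards [DZ_inv_le A, ev_log' 6, ev_log' (6 * (r : ℝ)), ev_log' (x0 : ℝ), eventually_ge_atTop 1]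
    with X hD hL6 hLr hLx hX1
  intro x hx1 hx2 hcor
  obtain ⟨L, hLdef⟩ : ∃ L, L = Real.log X := ⟨_, rfl⟩
  have hG1 : ∀ n, |G1 (zA A X) n| ≤ L ^ 2 := by
    intro n
    rw [abs_of_nonneg (G1_nonneg _ n), hLdef]
    exact G1_le (by linarith) hD n
  rw [← hLdef] at hx1 hx2 hLr hL6 hLx hcor ⊢
  have hL1 : 1 ≤ L := by linarith
  have hL0 : 0 < L := by linarith
  have hLp : ∀ m : ℕ, 0 < L ^ m := fun m => pow_pos hL0 m
  have hpow : L ^ (A0 + C1 + 1) ≤ x := (pow_le_pow_right₀ hL1 (by omega)).trans hx1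
  have hx1' : L ^ E0 ≤ x := (pow_le_pow_right₀ hL1 (by omega)).trans hx1
  have hx2' : (x : ℝ) ≤ X / L ^ E0 :=
    hx2.trans (div_le_div_of_nonneg_left (Nat.cast_nonneg _) (hLp _) (pow_le_pow_right₀ hL1 (by omega)))
  have hxpos : (0 : ℝ) < x := lt_of_lt_of_le (hLp _) hpow
  have hXpos : (0 : ℝ) < X := by exact_mod_cast hX1
  have hxX : (x : ℝ) ≤ X := hx2'.trans (div_le_self hXpos.le (one_le_pow₀ hL1))
  have hlx : Real.log x ≤ L := by
    rw [hLdef]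
    exact Real.log_le_log hxpos hxX
  have hxx0 : x0 ≤ x := by
    have h1 : L ≤ L ^ (A0 + C1 + 1) := le_self_pow₀ hL1 (by omega)
    have h2 : (x0 : ℝ) ≤ x := hLx.trans (h1.trans hpow)
    exact_mod_cast h2
  obtain ⟨hDx, hlx2⟩ := hx0 x hxx0
  have hg : ∀ n, |SHT.dg (zA A' x) n| ≤ L ^ 2 := by
    intro n
    refine (SHT.abs_dg_le hlx2 hDx n).trans ?_
    exact pow_le_pow_left₀ (by linarith) hlx 2
  have hQ : (0 : ℝ) ≤ (X : ℝ) ^ r := pow_nonneg hXpos.le _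
  obtain ⟨E, hE1, hE2, hE3⟩ := net_gen A0 C1 L (by linarith) x hpow
    (Fintype.piFinset (fun _ : Fin r => Icc 1 X))
    (fun a n => ((SHT.dg (zA A' x) n * ∏ i, G1 (zA A X) (n + a i) : ℝ) : ℂ)) ((X : ℝ) ^ r) hQ
    (by
      intro a _ n _
      rw [Complex.norm_real, Real.norm_eq_abs, abs_mul, Finset.abs_prod]
      have h1 : ∏ i, |G1 (zA A X) (n + a i)| ≤ (L ^ 2) ^ r := by
        refine (Finset.prod_le_prod (fun i _ => abs_nonneg _) fun i _ => hG1 (n + a i)).trans ?_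
        rw [prod_const, card_univ, Fintype.card_fin]
      calc |SHT.dg (zA A' x) n| * ∏ i, |G1 (zA A X) (n + a i)| ≤ L ^ 2 * (L ^ 2) ^ r :=
            mul_le_mul (hg n) h1 (prod_nonneg fun _ _ => abs_nonneg _) (hLp 2).le
        _ = L ^ C1 := by
            rw [hC1, ← pow_mul, ← pow_add]
            congr 1
            ring)
    (by
      intro y hy
      have h1 := second0 r X x y hy (SHT.dg (zA A' x)) (G1 (zA A X)) (L ^ 2) ((x : ℝ) ^ 2 / L ^ E0) (hLp 2)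
        hX1 hg hG1 (hcor y hy)
      have h2 := numer r B2 L x X hL6 hLr hxpos hXpos E0 hE0 hx1' hx2'
      rw [hB2] at h2
      refine le_trans (le_of_eq ?_) (h1.trans h2)
      refine sum_congr rfl fun a _ => ?_
      rw [← Complex.ofReal_sum, Complex.norm_real, Real.norm_eq_abs, sq_abs])
  refine ⟨E, hE1, hE2, ?_⟩
  intro a ha haE y hy
  have h1 := hE3 a ha haE y hy
  rw [← Complex.ofReal_sum, Complex.norm_real, Real.norm_eq_abs] at h1
  exact h1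

end Pool.Agent.SHZ
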