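import Pool.Agent.Lib.SHZ.Corr0
import Pool.Agent.Lib.SHZ.Sec0
import Pool.Agent.Lib.SHZ.Mix
import Pool.Agent.Lib.SHT.Final

/-!
# Tuples `(0, f)` in short ranges
-/

set_option autoImplicit false

open Finset Filter

namespace Pool.Agent.SHZ

open Pool.Agent.HLB Pool.Agent.HL Pool.Agent.HLT Pool.Agent.HLU Pool.Agent.VK Pool.Agent.VN Pool.Agent.SHT

lemma prod_cons {r : ℕ} (G : ℕ → ℝ) (f : Fin r → ℕ) (n : ℕ) :
    ∏ i, G (n + (Fin.cons 0 f : Fin (r + 1) → ℕ) i) = G n * ∏ i, G (n + f i) := by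
  rw [Fin.prod_univ_succ]
  simp only [Fin.cons_zero, Fin.cons_succ, add_zero]

lemma cons_inj {r : ℕ} (f : Fin r → ℕ) (hf : Function.Injective f) (h1 : ∀ i, 1 ≤ f i) :
    Function.Injective (Fin.cons 0 f : Fin (r + 1) → ℕ) := by
  rw [Fin.cons_injective_iff]
  refine ⟨?_, hf⟩
  rintro ⟨i, hi⟩
  have := h1 i
  omega

/-- Dyadic short ranges. -/
theorem short_x0 (r A : ℕ) (ε : ℝ) (hε : 0 < ε) : ∃ C x0 : ℕ, ∀ X : ℕ, x0 ≤ X →
    ∃ E ⊆ Fintype.piFinset (fun _ : Fin r => Icc 1 X), (E.card : ℝ) ≤ (X : ℝ) ^ r / Real.log X ^ A ∧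
    ∀ f ∈ Fintype.piFinset (fun _ : Fin r => Icc 1 X), f ∉ E → Function.Injective f →
      ∀ x : ℕ, (X : ℝ) ^ (1 / 6 + ε) ≤ x → 2 * (x : ℝ) * Real.log X ^ C ≤ X → ∀ y : ℕ, y ≤ x →
        |(((Icc 1 y).filter (fun n : ℕ => ∀ i, (n + (Fin.cons 0 f : Fin (r + 1) → ℕ) i).Prime)).card : ℝ) -
          SI (Fin.cons 0 f : Fin (r + 1) → ℕ) * ∑ n ∈ Icc 2 y, hl univ (Fin.cons 0 f : Fin (r + 1) → ℕ) n| ≤
          x / Real.log X ^ A := by
  classical
  obtain ⟨B1, C1, h1⟩ := short_w r 0 (A + 4)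
  obtain ⟨K2, B2, C2, h2⟩ := cor_of_msp B1
  obtain ⟨Am, h3⟩ := mix r (A + 3) (1 / 6) (by norm_num)
  obtain ⟨Bs, Cs, h4⟩ := sec0 r (A + 4)
  obtain ⟨A1, hA1, h5⟩ := cor0 Am (Bs + 1)
  obtain ⟨x1, h5⟩ := eventually_atTop.mp h5
  obtain ⟨A', hA', h6⟩ := msp_interval K2 B2 A1 ε hε
  have hev := ((((h1 A').and (h2 A')).and ((h3 A1 A' hA1 hA').and h6)).and
    (((ev_log (max 8 (6 ^ (Bs + 1)))).and (ev_pow_le (max C1 Cs) 1 (1 / 6 + ε) (by linarith))).and (h4 A' A1))).and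
    (ev_pow_le 0 x1 (1 / 6 + ε) (by linarith))
  obtain ⟨x0, hx0⟩ := eventually_atTop.mp hev
  refine ⟨max (max C1 C2) Cs, max x0 1, fun X hX => ?_⟩
  obtain ⟨⟨⟨⟨h7, h8⟩, h9, h10⟩, ⟨hL', hp⟩, h11⟩, hp1⟩ := hx0 X (le_trans (le_max_left _ _) hX)
  have hL : 8 ≤ Real.log X := (le_max_left _ _).trans hL'
  have hL6 : (6 : ℝ) ^ (Bs + 1) ≤ Real.log X := (le_max_right _ _).trans hL'
  have hX1 : 1 ≤ X := le_trans (le_max_right _ _) hX
  have hXr : (0 : ℝ) < X := by exact_mod_cast hX1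
  have hXr1 : (1 : ℝ) ≤ X := by exact_mod_cast hX1
  have hL0 : 0 < Real.log X := by linarith
  have hL1 : 1 ≤ Real.log X := by linarith
  rw [one_mul] at hp
  rw [pow_zero, mul_one] at hp1
  obtain ⟨C, hC⟩ : ∃ C : ℕ, C = max (max C1 C2) Cs := ⟨_, rfl⟩
  rw [← hC]
  have hCC1 : C1 ≤ C := by rw [hC]; exact (le_max_left _ _).trans (le_max_left _ _)
  have hCC2 : C2 ≤ C := by rw [hC]; exact (le_max_right _ _).trans (le_max_left _ _)
  have hCCs : Cs ≤ C := by rw [hC]; exact le_max_right _ _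
  set P := Fintype.piFinset (fun _ : Fin r => Icc 1 X) with hP
  have key : ∀ j : ℕ, ∃ E ⊆ P, (E.card : ℝ) ≤ 2 * ((X : ℝ) ^ r / Real.log X ^ (A + 4)) ∧
      ((X : ℝ) ^ (1 / 6 + ε) ≤ ((2 ^ j : ℕ) : ℝ) → ((2 ^ j : ℕ) : ℝ) * Real.log X ^ C ≤ X →
        ∀ a ∈ P, a ∉ E → ∀ y : ℕ, y ≤ 2 ^ j →
          |∑ n ∈ Icc 1 y, G0 n * (∏ i, G0 (n + a i) - ∏ i, G1 (zA A' X) (n + a i))| ≤
            ((2 ^ j : ℕ) : ℝ) / Real.log X ^ (A + 4) ∧
          |∑ n ∈ Icc 1 y, dg (zA A1 (2 ^ j)) n * ∏ i, G1 (zA A' X) (n + a i)| ≤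
            ((2 ^ j : ℕ) : ℝ) / Real.log X ^ (A + 4)) := by
    intro j
    by_cases hj : (X : ℝ) ^ (1 / 6 + ε) ≤ ((2 ^ j : ℕ) : ℝ) ∧ ((2 ^ j : ℕ) : ℝ) * Real.log X ^ C ≤ X
    · have hpw : ∀ c : ℕ, c ≤ C → ((2 ^ j : ℕ) : ℝ) ≤ X / Real.log X ^ c := by
        intro c hc
        rw [le_div_iff₀ (by positivity)]
        exact (mul_le_mul_of_nonneg_left (pow_le_pow_right₀ hL1 hc) (Nat.cast_nonneg _)).trans hj.2
      have hx3 : 2 ^ j ≤ X := by
        have h9 : ((2 ^ j : ℕ) : ℝ) ≤ X := (hpw C1 hCC1).trans (div_le_self hXr.le (one_le_pow₀ hL1))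
        exact_mod_cast h9
      have hlow1 : Real.log X ^ C1 ≤ ((2 ^ j : ℕ) : ℝ) :=
        ((pow_le_pow_right₀ hL1 (le_max_left _ _)).trans hp).trans hj.1
      have hlow2 : Real.log X ^ Cs ≤ ((2 ^ j : ℕ) : ℝ) :=
        ((pow_le_pow_right₀ hL1 (le_max_right _ _)).trans hp).trans hj.1
      have hcorS := h8 (2 ^ j) (hpw C2 hCC2) (h10 (2 ^ j) hj.1 hx3)
      obtain ⟨E, e1, e2, e3⟩ := h7 (2 ^ j) hlow1 (hpw C1 hCC1) hcorS (fun n => (G0 n : ℂ)) (fun n _ => by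
        rw [Complex.norm_real, Real.norm_eq_abs, abs_of_nonneg (G0_nonneg n), pow_zero]
        exact G0_le n)
      have hx1j : x1 ≤ 2 ^ j := by
        have h12 : (x1 : ℝ) ≤ ((2 ^ j : ℕ) : ℝ) := hp1.trans hj.1
        exact_mod_cast h12
      have hlogj : Real.log X / 6 ≤ Real.log ((2 ^ j : ℕ) : ℝ) := by
        have h12 := Real.log_le_log (by positivity) hj.1
        rw [Real.log_rpow hXr] at h12
        nlinarith
      have hcor : ∀ y : ℕ, y ≤ 2 ^ j → ∑ d ∈ Icc 1 (2 ^ j), |co (dg (zA A1 (2 ^ j))) y d| ≤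
          ((2 ^ j : ℕ) : ℝ) ^ 2 / Real.log X ^ Bs := by
        intro y hy
        refine (h5 (2 ^ j) hx1j y hy).trans ?_
        refine div_le_div_of_nonneg_left (by positivity) (by positivity) ?_
        calc Real.log X ^ Bs ≤ Real.log X ^ Bs * (Real.log X / 6 ^ (Bs + 1)) := by
              refine le_mul_of_one_le_right (by positivity) ?_
              rw [le_div_iff₀ (by positivity), one_mul]
              exact hL6
          _ = (Real.log X / 6) ^ (Bs + 1) := by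
              rw [div_pow, pow_succ (Real.log X)]
              ring
          _ ≤ Real.log ((2 ^ j : ℕ) : ℝ) ^ (Bs + 1) := pow_le_pow_left₀ (by positivity) hlogj _
      obtain ⟨E', e1', e2', e3'⟩ := h11 (2 ^ j) hlow2 (hpw Cs hCCs) hcor
      refine ⟨E ∪ E', Finset.union_subset e1 e1', ?_, fun _ _ a ha haE y hy => ?_⟩
      · have h12 : ((E ∪ E').card : ℝ) ≤ E.card + E'.card := by exact_mod_cast Finset.card_union_le _ _
        linarith
      · rw [Finset.mem_union, not_or] at haE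
        refine ⟨?_, e3' a ha haE.2 y hy⟩
        have h12 := e3 a ha haE.1 y hy
        have h13 : (∑ n ∈ Icc 1 y, (G0 n : ℂ) * ((∏ i, G0 (n + a i) - ∏ i, G1 (zA A' X) (n + a i) : ℝ) : ℂ)) =
            ((∑ n ∈ Icc 1 y, G0 n * (∏ i, G0 (n + a i) - ∏ i, G1 (zA A' X) (n + a i)) : ℝ) : ℂ) := by
          push_cast
          rfl
        rwa [h13, Complex.norm_real, Real.norm_eq_abs] at h12
    · refine ⟨∅, Finset.empty_subset _, ?_, fun a b => absurd ⟨a, b⟩ hj⟩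
      rw [Finset.card_empty, Nat.cast_zero]
      positivity
  choose E e1 e2 e3 using key
  set J : ℕ := ⌊2 * Real.log X⌋₊ + 1 with hJ
  refine ⟨(range J).biUnion E, Finset.biUnion_subset.mpr fun j _ => e1 j, ?_, fun f hf hfE hinj x hx1 hx2 y hy => ?_⟩
  · have h9 : (J : ℝ) ≤ Real.log X ^ 2 := by
      have h10 : (⌊2 * Real.log X⌋₊ : ℝ) ≤ 2 * Real.log X := Nat.floor_le (by positivity)
      rw [hJ]
      push_cast
      nlinarith
    calc (((range J).biUnion E).card : ℝ) ≤ ∑ j ∈ range J, ((E j).card : ℝ) := by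
          exact_mod_cast Finset.card_biUnion_le
      _ ≤ ∑ _j ∈ range J, 2 * ((X : ℝ) ^ r / Real.log X ^ (A + 4)) := Finset.sum_le_sum fun j _ => e2 j
      _ = J * (2 * ((X : ℝ) ^ r / Real.log X ^ (A + 4))) := by
          rw [Finset.sum_const, Finset.card_range, nsmul_eq_mul]
      _ ≤ Real.log X ^ 2 * (2 * ((X : ℝ) ^ r / Real.log X ^ (A + 4))) := mul_le_mul_of_nonneg_right h9 (by positivity)
      _ = (2 / Real.log X ^ 2) * ((X : ℝ) ^ r / Real.log X ^ A) := by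
          rw [show A + 4 = A + 2 + 2 by ring, pow_add, pow_add]
          field_simp
      _ ≤ 1 * ((X : ℝ) ^ r / Real.log X ^ A) := by
          refine mul_le_mul_of_nonneg_right ?_ (by positivity)
          rw [div_le_one (by positivity)]
          nlinarith
      _ = (X : ℝ) ^ r / Real.log X ^ A := one_mul _
  · -- the dyadic number
    have hx0' : 1 ≤ x := by
      have h9 : (1 : ℝ) ≤ (X : ℝ) ^ (1 / 6 + ε) := Real.one_le_rpow hXr1 (by linarith)
      exact_mod_cast h9.trans hx1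
    obtain ⟨j, hj1, hj2⟩ : ∃ j : ℕ, x ≤ 2 ^ j ∧ 2 ^ j ≤ 2 * x := by
      refine ⟨Nat.clog 2 x, Nat.le_pow_clog (by norm_num) x, ?_⟩
      rcases Nat.lt_or_ge 1 x with h | h
      · have h9 := Nat.pow_pred_clog_lt_self (b := 2) (by norm_num) h
        have h10 : 0 < Nat.clog 2 x := Nat.clog_pos (by norm_num) h
        have h11 : 2 ^ Nat.clog 2 x = 2 * 2 ^ (Nat.clog 2 x).pred := by
          rw [← pow_succ']
          congr 1
          have := Nat.succ_pred_eq_of_pos h10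
          omega
        omega
      · have : x = 1 := by omega
        subst this
        simp
    have hj1r : (x : ℝ) ≤ ((2 ^ j : ℕ) : ℝ) := by exact_mod_cast hj1
    have hj2r : ((2 ^ j : ℕ) : ℝ) ≤ 2 * x := by exact_mod_cast hj2
    have hCC : (0 : ℝ) < Real.log X ^ C := by positivity
    have hc2 : ((2 ^ j : ℕ) : ℝ) * Real.log X ^ C ≤ X :=
      (mul_le_mul_of_nonneg_right hj2r hCC.le).trans hx2
    have hjX : ((2 ^ j : ℕ) : ℝ) ≤ X := by
      have h10 : (1 : ℝ) ≤ Real.log X ^ C := one_le_pow₀ hL1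
      have h11 : (0 : ℝ) ≤ ((2 ^ j : ℕ) : ℝ) := Nat.cast_nonneg _
      nlinarith
    have hjXn : 2 ^ j ≤ X := by exact_mod_cast hjX
    have hjJ : j ∈ range J := by
      rw [Finset.mem_range, hJ, Nat.lt_succ_iff]
      apply Nat.le_floor
      have h10 := Real.log_le_log (by positivity) hjX
      rw [Nat.cast_pow, Real.log_pow] at h10
      have h11 : (0.6931471803 : ℝ) < Real.log 2 := Real.log_two_gt_d9
      push_cast at h10
      have h12 : (0 : ℝ) ≤ j := Nat.cast_nonneg j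
      nlinarith
    have hne : f ∉ E j := fun h => hfE (Finset.mem_biUnion.mpr ⟨j, hjJ, h⟩)
    obtain ⟨g1, g2⟩ := e3 j (hx1.trans hj1r) hc2 f hf hne y (hy.trans hj1)
    have hft : ∀ i, f i ≤ 2 * X := by
      intro i
      have := (mem_Icc.mp (Fintype.mem_piFinset.mp hf i)).2
      omega
    have hf1 : ∀ i, 1 ≤ f i := fun i => (mem_Icc.mp (Fintype.mem_piFinset.mp hf i)).1
    have hcinj := cons_inj f hinj hf1
    have hx16 : (X : ℝ) ^ (1 / 6 : ℝ) ≤ ((2 ^ j : ℕ) : ℝ) :=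
      ((Real.rpow_le_rpow_of_exponent_le hXr1 (by linarith)).trans hx1).trans hj1r
    have g3 := h9 f hcinj hft (2 ^ j) hx16 hjXn y (hy.trans hj1)
    set s : Fin (r + 1) → ℕ := Fin.cons 0 f with hs
    have g4 : (((Icc 1 y).filter (fun n : ℕ => ∀ i, (n + s i).Prime)).card : ℝ) =
        ∑ n ∈ Icc 1 y, G0 n * (∏ i, G0 (n + f i) - ∏ i, G1 (zA A' X) (n + f i)) +
        ∑ n ∈ Icc 1 y, dg (zA A1 (2 ^ j)) n * ∏ i, G1 (zA A' X) (n + f i) +
        ∑ n ∈ Icc 1 y, G1 (zA A1 (2 ^ j)) n * ∏ i, G1 (zA A' X) (n + f i) := by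
      rw [← sum_G0, ← Finset.sum_add_distrib, ← Finset.sum_add_distrib]
      refine Finset.sum_congr rfl fun n _ => ?_
      rw [hs, prod_cons G0 f n]
      unfold dg
      ring
    have hxr : (0 : ℝ) ≤ x := Nat.cast_nonneg x
    have g5 : |(((Icc 1 y).filter (fun n : ℕ => ∀ i, (n + s i).Prime)).card : ℝ) - SI s * ∑ n ∈ Icc 2 y, hl univ s n| ≤
        ((2 ^ j : ℕ) : ℝ) / Real.log X ^ (A + 4) + ((2 ^ j : ℕ) : ℝ) / Real.log X ^ (A + 4) +
          ((2 ^ j : ℕ) : ℝ) / Real.log X ^ (A + 3) := by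
      rw [g4, add_sub_assoc]
      exact (abs_add_le _ _).trans (add_le_add ((abs_add_le _ _).trans (add_le_add g1 g2)) g3)
    refine g5.trans ?_
    have h12 : ((2 ^ j : ℕ) : ℝ) / Real.log X ^ (A + 4) ≤ 2 * x / Real.log X ^ (A + 3) := by
      refine (div_le_div_of_nonneg_right hj2r (by positivity)).trans ?_
      exact div_le_div_of_nonneg_left (by positivity) (by positivity) (pow_le_pow_right₀ hL1 (by omega))
    have h13 : ((2 ^ j : ℕ) : ℝ) / Real.log X ^ (A + 3) ≤ 2 * x / Real.log X ^ (A + 3) :=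
      div_le_div_of_nonneg_right hj2r (by positivity)
    have h14 : 3 * (2 * (x : ℝ) / Real.log X ^ (A + 3)) ≤ x / Real.log X ^ A := by
      rw [mul_div_assoc', div_le_div_iff₀ (by positivity) (by positivity), pow_add]
      have h15 : (6 : ℝ) ≤ Real.log X ^ 3 := by nlinarith [pow_le_pow_left₀ (by norm_num) hL 3]
      calc 3 * (2 * (x : ℝ)) * Real.log X ^ A = (x * Real.log X ^ A) * 6 := by ring
        _ ≤ (x * Real.log X ^ A) * Real.log X ^ 3 := mul_le_mul_of_nonneg_left h15 (by positivity)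
        _ = x * (Real.log X ^ A * Real.log X ^ 3) := by ring
    linarith

end Pool.Agent.SHZ
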